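import Pool.Agent.N535.HM.Core
import Pool.Agent.H651R3.Berg1
import Pool.Agent.Helper606.FW.P_lintegral_mob

set_option autoImplicit false

open Filter Topology Set MeasureTheory Metric
open scoped ENNReal ComplexConjugate

namespace Pool.Agent.N535.HM

/-- area mean value inequality for the real part -/
theorem area_disc {f : ℂ → ℂ} (hf : DifferentiableOn ℂ f (ball 0 1))
    (hp : ∀ w ∈ ball (0 : ℂ) 1, 0 ≤ (f w).re) :
    ∫⁻ w in ball (0 : ℂ) 1, ENNReal.ofReal (f w).re ≤ ENNReal.ofReal (Real.pi * (f 0).re) := by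
  classical
  set G : ℂ → ℝ≥0∞ := (ball (0 : ℂ) 1).indicator (fun w => ENNReal.ofReal (f w).re) with hG
  have hGm : Measurable G := by
    rw [hG, ← piecewise_eq_indicator]
    apply ContinuousOn.measurable_piecewise _ continuousOn_const isOpen_ball.measurableSet
    exact ENNReal.continuous_ofReal.comp_continuousOn
      (Complex.continuous_re.comp_continuousOn hf.continuousOn)
  have e1 : ∫⁻ w in ball (0 : ℂ) 1, ENNReal.ofReal (f w).re = ∫⁻ w in ball (0 : ℂ) 1, G w := by
    apply setLIntegral_congr_fun isOpen_ball.measurableSet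
    intro w hw
    rw [hG, indicator_of_mem hw]
  rw [e1, Pool.Agent.H651R3.Berg.lintegral_ball hGm]
  have e2 : ∀ r ∈ Ioo (0 : ℝ) 1, ENNReal.ofReal r * ∫⁻ θ in Ioo (-Real.pi) Real.pi, G (circleMap 0 r θ)
      = ENNReal.ofReal r * ENNReal.ofReal (2 * Real.pi * (f 0).re) := by
    intro r hr
    congr 1
    have hmem : ∀ w ∈ sphere (0 : ℂ) r, w ∈ ball (0 : ℂ) 1 := fun w hw => by
      rw [mem_sphere_zero_iff_norm] at hw
      rw [mem_ball_zero_iff, hw]; exact hr.2
    have h1 : ∀ θ : ℝ, G (circleMap 0 r θ) =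
        ENNReal.ofReal ((fun w => max (f w).re 0) (circleMap 0 r θ)) := by
      intro θ
      have h2 := hmem _ (circleMap_mem_sphere 0 hr.1.le θ)
      rw [hG, indicator_of_mem h2]
      simp only
      rw [max_eq_left (hp _ h2)]
    simp_rw [h1]
    refine (Pool.Agent.H651R3.Berg.inner_eq (φ := fun w => max (f w).re 0) hr.1.le ?_ ?_).trans ?_
    rotate_left 2
    · congr 2
      have h3 : Real.circleAverage (fun w => max (f w).re 0) 0 r = Real.circleAverage (fun w => (f w).re) 0 r := by
        apply Real.circleAverage_congr_sphere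
        intro w hw
        rw [abs_of_pos hr.1] at hw
        exact max_eq_left (hp _ (hmem _ hw))
      rw [h3]
      have h4 : Real.circleAverage f 0 r = f 0 := by
        apply circleAverage_of_differentiable_on_off_countable countable_empty
        · apply hf.continuousOn.mono
          rw [abs_of_pos hr.1]
          exact closedBall_subset_ball hr.2
        · intro w hw
          rw [abs_of_pos hr.1] at hw
          exact hf.differentiableAt (isOpen_ball.mem_nhds (ball_subset_ball hr.2.le hw.1))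
      have h5 : CircleIntegrable f 0 r := by
        apply ContinuousOn.circleIntegrable hr.1.le
        exact hf.continuousOn.mono hmem
      rw [← h4]
      have h6 : (fun w => (f w).re) = Complex.reCLM ∘ f := rfl
      rw [h6, Complex.reCLM.circleAverage_comp_comm h5]
      rfl
    · exact (continuous_id.max continuous_const).comp_continuousOn
        (Complex.continuous_re.comp_continuousOn (hf.continuousOn.mono hmem))
    · intro w
      exact le_max_right _ _
  rw [setLIntegral_congr_fun measurableSet_Ioo e2, lintegral_mul_const' _ _ ENNReal.ofReal_ne_top]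
  have e3 : ∫⁻ r in Ioo (0 : ℝ) 1, ENNReal.ofReal r = ENNReal.ofReal (1 / 2) := by
    rw [← ofReal_integral_eq_lintegral_ofReal]
    · rw [← integral_Ioc_eq_integral_Ioo, ← intervalIntegral.integral_of_le zero_le_one, integral_id]
      norm_num
    · exact (continuous_id.continuousOn.integrableOn_Icc (a := (0:ℝ)) (b := 1)).mono_set Ioo_subset_Icc_self
    · rw [Filter.EventuallyLE, ae_restrict_iff' measurableSet_Ioo]
      exact Eventually.of_forall fun x hx => hx.1.le
  rw [e3, ← ENNReal.ofReal_mul (by norm_num)]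
  apply ENNReal.ofReal_le_ofReal
  apply le_of_eq
  ring

/-- area estimate in the half-plane -/
theorem area {F : ℂ → ℂ} (hF : DifferentiableOn ℂ F Rp) (hp : ∀ w ∈ Rp, 0 < (F w).re)
    {x0 y0 : ℝ} (hx0 : 0 < x0) :
    ∫⁻ η in Ioc y0 (y0 + x0), ∫⁻ x in Ioc 0 x0, ENNReal.ofReal (F (x + η * Complex.I)).re ≤
      ENNReal.ofReal (20 * x0 ^ 2 * (F (x0 + y0 * Complex.I)).re) := by
  classical
  obtain ⟨a, ha⟩ : ∃ a : ℂ, a = x0 + y0 * Complex.I := ⟨_, rfl⟩
  have hare : a.re = x0 := by rw [ha]; simp
  have haim : a.im = y0 := by rw [ha]; simp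
  have haR : a ∈ Rp := by rw [mem_Rp, hare]; exact hx0
  set G : ℂ → ℝ≥0∞ := Rp.indicator (fun w => ENNReal.ofReal (F w).re) with hG
  have hGm : Measurable G := by
    rw [hG, ← piecewise_eq_indicator]
    apply ContinuousOn.measurable_piecewise _ continuousOn_const isOpen_Rp.measurableSet
    exact ENNReal.continuous_ofReal.comp_continuousOn
      (Complex.continuous_re.comp_continuousOn hF.continuousOn)
  set S : Set ℂ := {z : ℂ | z.re ∈ Ioc 0 x0 ∧ z.im ∈ Ioc y0 (y0 + x0)} with hS
  have hSm : MeasurableSet S := by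
    apply MeasurableSet.inter
    · exact Complex.measurable_re measurableSet_Ioc
    · exact Complex.measurable_im measurableSet_Ioc
  -- Fubini
  have e1 : ∫⁻ η in Ioc y0 (y0 + x0), ∫⁻ x in Ioc 0 x0, ENNReal.ofReal (F (x + η * Complex.I)).re
      = ∫⁻ z in S, G z := by
    have h1 : ∫⁻ z in S, G z = ∫⁻ p in (Ioc 0 x0 ×ˢ Ioc y0 (y0 + x0)), G (p.1 + p.2 * Complex.I) := by
      have hmp := Complex.volume_preserving_equiv_real_prod.symm
      have h2 := hmp.setLIntegral_comp_preimage_emb (MeasurableEquiv.measurableEmbedding _) G S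
      rw [← h2]
      have h3 : (Complex.measurableEquivRealProd.symm ⁻¹' S) = (Ioc 0 x0 ×ˢ Ioc y0 (y0 + x0)) := by
        ext p
        simp [hS, Complex.measurableEquivRealProd]
      rw [h3]
      apply lintegral_congr
      intro p
      congr 1
      apply Complex.ext
      · simp [Complex.measurableEquivRealProd]
      · simp [Complex.measurableEquivRealProd]
    rw [h1, Measure.volume_eq_prod, ← Measure.prod_restrict, lintegral_prod_symm]
    · apply lintegral_congr
      intro η
      apply setLIntegral_congr_fun measurableSet_Ioc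
      intro x hx
      have : ((x : ℂ) + η * Complex.I) ∈ Rp := by rw [mem_Rp]; simpa using hx.1
      simp only
      rw [hG, indicator_of_mem this]
    · apply Measurable.aemeasurable
      apply hGm.comp
      fun_prop
  rw [e1]
  -- Cayley map
  obtain ⟨κ, hκ⟩ : ∃ κ : ℂ → ℂ, κ = fun z => (z - a) / (z + conj a) := ⟨_, rfl⟩
  obtain ⟨ψ, hψ⟩ : ∃ ψ : ℂ → ℂ, ψ = fun w => (a + conj a * w) / (1 - w) := ⟨_, rfl⟩
  have hne : ∀ z ∈ Rp, z + conj a ≠ 0 := by
    intro z hz h0
    have := congrArg Complex.re h0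
    simp only [Complex.add_re, Complex.conj_re, Complex.zero_re, hare] at this
    rw [mem_Rp] at hz
    linarith
  have hne1 : ∀ w ∈ ball (0 : ℂ) 1, 1 - w ≠ 0 := by
    intro w hw h0
    rw [mem_ball_zero_iff] at hw
    have : w = 1 := by linear_combination -h0
    rw [this] at hw
    simp at hw
  have hψmem : ∀ w ∈ ball (0 : ℂ) 1, ψ w ∈ Rp := by
    intro w hw
    have h1 := hne1 w hw
    rw [mem_ball_zero_iff] at hw
    have h2 : Complex.normSq w < 1 := by
      rw [Complex.normSq_eq_norm_sq]; nlinarith [norm_nonneg w]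
    have h3 : 0 < Complex.normSq (1 - w) := Complex.normSq_pos.2 h1
    rw [mem_Rp, hψ, Complex.div_re, ← add_div]
    apply div_pos _ h3
    rw [Complex.normSq_apply] at h2
    simp only [Complex.add_re, Complex.mul_re, Complex.conj_re, Complex.conj_im, Complex.add_im,
      Complex.mul_im, Complex.sub_re, Complex.one_re, Complex.sub_im, Complex.one_im, hare]
    nlinarith
  have hκmem : ∀ z ∈ Rp, κ z ∈ ball (0 : ℂ) 1 := by
    intro z hz
    have h1 := hne z hz
    rw [mem_Rp] at hz
    rw [mem_ball_zero_iff, hκ, norm_div, div_lt_one (norm_pos_iff.2 h1)]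
    apply lt_of_pow_lt_pow_left₀ 2 (norm_nonneg _)
    rw [← Complex.normSq_eq_norm_sq, ← Complex.normSq_eq_norm_sq, Complex.normSq_apply,
      Complex.normSq_apply]
    simp only [Complex.sub_re, Complex.sub_im, Complex.add_re, Complex.add_im, Complex.conj_re,
      Complex.conj_im, hare, haim]
    nlinarith
  have hψκ : ∀ z ∈ Rp, ψ (κ z) = z := by
    intro z hz
    have h1 := hne z hz
    have h2 : (a + conj a) ≠ 0 := hne a haR
    rw [hψ, hκ]
    simp only
    have h3 : 1 - (z - a) / (z + conj a) = (a + conj a) / (z + conj a) := by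
      field_simp; ring
    rw [h3]
    field_simp
    ring
  have hκa : κ a = 0 := by rw [hκ]; simp
  have hψ0 : ψ 0 = a := by rw [hψ]; simp
  have hκd : ∀ z ∈ Rp, HasDerivAt κ (2 * x0 / (z + conj a) ^ 2) z := by
    intro z hz
    have h1 := hne z hz
    have h2 := ((hasDerivAt_id z).sub_const a).div ((hasDerivAt_id z).add_const (conj a)) h1
    rw [hκ]
    have h3 : (2 * x0 : ℂ) = a + conj a := by
      rw [Complex.add_conj, hare]; push_cast; ring
    refine HasDerivAt.congr_deriv (f := fun z => (z - a) / (z + conj a)) h2 ?_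
    rw [h3]
    simp only [id]
    congr 1
    ring
  have hinj : InjOn κ S := by
    intro x hx y hy hxy
    rw [← hψκ x hx.1.1, hxy, hψκ y hy.1.1]
  have hfd : ∀ z ∈ S, HasFDerivWithinAt κ ((2 * x0 / (z + conj a) ^ 2 : ℂ) • (1 : ℂ →L[ℝ] ℂ)) S z := by
    intro z hz
    exact (hκd z hz.1.1).complexToReal_fderiv.hasFDerivWithinAt
  have hcv := lintegral_image_eq_lintegral_abs_det_fderiv_mul volume hSm hfd hinj
    (fun w => ENNReal.ofReal (F (ψ w)).re)
  have hfdiff : DifferentiableOn ℂ (fun w => F (ψ w)) (ball 0 1) := by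
    apply hF.comp (t := Rp) _ hψmem
    rw [hψ]
    intro w hw
    have := hne1 w hw
    apply DifferentiableAt.differentiableWithinAt
    fun_prop (disch := assumption)
  have h1 : ∫⁻ w in κ '' S, ENNReal.ofReal (F (ψ w)).re ≤ ENNReal.ofReal (Real.pi * (F a).re) := by
    have h1a : κ '' S ⊆ ball 0 1 := by
      rintro _ ⟨z, hz, rfl⟩
      exact hκmem z hz.1.1
    refine (lintegral_mono_set h1a).trans ?_
    have := area_disc hfdiff (fun w hw => (hp _ (hψmem w hw)).le)
    simpa only [hψ0] using this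
  rw [hcv] at h1
  have h2 : ∫⁻ z in S, G z ≤ ENNReal.ofReal (25 * x0 ^ 2 / 4) * ∫⁻ z in S,
      ENNReal.ofReal |((2 * x0 / (z + conj a) ^ 2 : ℂ) • (1 : ℂ →L[ℝ] ℂ)).det| *
        ENNReal.ofReal (F (ψ (κ z))).re := by
    rw [← lintegral_const_mul' _ _ ENNReal.ofReal_ne_top]
    apply setLIntegral_mono' hSm
    intro z hz
    have hzR : z ∈ Rp := hz.1.1
    rw [hG, indicator_of_mem hzR, hψκ z hzR, Pool.Agent.Helper606.FW.lm_det, ← mul_assoc,
      ← ENNReal.ofReal_mul (by positivity)]
    have h3 : 1 ≤ 25 * x0 ^ 2 / 4 * |‖(2 * x0 / (z + conj a) ^ 2 : ℂ)‖ ^ 2| := by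
      rw [abs_of_nonneg (by positivity), norm_div, norm_pow, norm_mul, Complex.norm_real,
        Real.norm_eq_abs, abs_of_pos hx0]
      have h4 : 0 < ‖z + conj a‖ := norm_pos_iff.2 (hne z hzR)
      have h5 : ‖z + conj a‖ ^ 2 ≤ 5 * x0 ^ 2 := by
        rw [← Complex.normSq_eq_norm_sq, Complex.normSq_apply]
        simp only [Complex.add_re, Complex.add_im, Complex.conj_re, Complex.conj_im, hare, haim]
        have h6 := hz.1.1
        have h7 := hz.1.2
        have h8 := hz.2.1
        have h9 := hz.2.2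
        nlinarith
      have h6 : (‖z + conj a‖ ^ 2) ^ 2 ≤ (5 * x0 ^ 2) ^ 2 := by gcongr
      have h7 : (‖(2 : ℂ)‖ * x0 / ‖z + conj a‖ ^ 2) ^ 2 = 4 * x0 ^ 2 / (‖z + conj a‖ ^ 2) ^ 2 := by
        rw [div_pow, mul_pow]
        norm_num
      rw [h7, ← mul_div_assoc, one_le_div (by positivity)]
      nlinarith
    calc ENNReal.ofReal (F z).re = 1 * ENNReal.ofReal (F z).re := (one_mul _).symm
      _ ≤ _ := by
        gcongr
        rw [ENNReal.one_le_ofReal]
        exact h3
  refine h2.trans ?_
  refine (mul_le_mul_right h1 _).trans ?_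
  rw [← ENNReal.ofReal_mul (by positivity)]
  apply ENNReal.ofReal_le_ofReal
  rw [← ha]
  have h3 := (hp a haR).le
  have h4 : Real.pi ≤ 3.2 := by linarith [Real.pi_lt_d2]
  have h5 : 0 ≤ x0 ^ 2 * (F a).re := by positivity
  nlinarith [mul_le_mul_of_nonneg_left h4 h5]

end Pool.Agent.N535.HM
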