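import Pool.Agent.Y242.LW.TK1

set_option autoImplicit false

open Filter Topology Set MeasureTheory

namespace Pool.Agent.N535.HM

/-- the open right half-plane -/
def Rp : Set ℂ := {z : ℂ | 0 < z.re}

theorem mem_Rp {z : ℂ} : z ∈ Rp ↔ 0 < z.re := Iff.rfl

theorem isOpen_Rp : IsOpen Rp := isOpen_lt continuous_const Complex.continuous_re

/-- Schwarz-Pick for the real part -/
theorem sp_re {F : ℂ → ℂ} (hF : DifferentiableOn ℂ F Rp) (hp : ∀ z ∈ Rp, 0 ≤ (F z).re)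
    {a b : ℂ} (ha : a ∈ Rp) (hb : b ∈ Rp) :
    ‖F a - F b‖ ^ 2 * a.re * b.re ≤ ‖a - b‖ ^ 2 * (F a).re * (F b).re := by
  have hm : ∀ w ∈ LW242.Hp, -Complex.I * w ∈ Rp := fun w hw => by
    have : 0 < w.im := hw
    simp only [Rp, mem_setOf_eq, Complex.mul_re, Complex.neg_re, Complex.I_re, Complex.neg_im,
      Complex.I_im]
    linarith
  have h := LW242.sp (fun w => Complex.I * F (-Complex.I * w)) (by
    apply DifferentiableOn.const_mul
    exact hF.comp (f := fun w : ℂ => -Complex.I * w) (differentiable_id.const_mul _).differentiableOn hm) (by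
    intro w hw
    have := hp _ (hm w hw)
    simpa [Complex.mul_im] using this) (Complex.I * a) (by
      have : 0 < a.re := ha
      simpa [LW242.Hp, Complex.mul_im] using this) (Complex.I * b) (by
      have : 0 < b.re := hb
      simpa [LW242.Hp, Complex.mul_im] using this)
  have e1 : ∀ w : ℂ, -Complex.I * (Complex.I * w) = w := fun w => by
    rw [← mul_assoc, neg_mul, Complex.I_mul_I]; ring
  simp only [e1] at h
  rw [← mul_sub, ← mul_sub, norm_mul, norm_mul, Complex.norm_I, one_mul, one_mul] at h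
  simpa [Complex.mul_im] using h

/-- Harnack -/
theorem harnack {F : ℂ → ℂ} (hF : DifferentiableOn ℂ F Rp) (hp : ∀ z ∈ Rp, 0 < (F z).re)
    {a b : ℂ} (ha : a ∈ Rp) (hb : b ∈ Rp) :
    (F b).re * (a.re * b.re) ≤ (2 * (a.re * b.re) + ‖a - b‖ ^ 2) * (F a).re := by
  have h1 := sp_re hF (fun z hz => (hp z hz).le) ha hb
  have h2 : ((F a).re - (F b).re) ^ 2 ≤ ‖F a - F b‖ ^ 2 := by
    rw [← Complex.sub_re]
    exact (sq_le_sq.2 (by rw [abs_norm]; exact Complex.abs_re_le_norm _))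
  have ha' : 0 < a.re := ha
  have hb' : 0 < b.re := hb
  have h3 : ((F a).re - (F b).re) ^ 2 * (a.re * b.re) ≤ ‖a - b‖ ^ 2 * (F a).re * (F b).re := by
    refine le_trans ?_ h1
    rw [mul_assoc]
    exact mul_le_mul_of_nonneg_right h2 (by positivity)
  have hpa := hp a ha
  have hpb := hp b hb
  have h4 : (F b).re * ((F b).re * (a.re * b.re)) ≤
      (F b).re * ((2 * (a.re * b.re) + ‖a - b‖ ^ 2) * (F a).re) := by
    have : 0 ≤ (F a).re ^ 2 * (a.re * b.re) := by positivity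
    nlinarith
  exact le_of_mul_le_mul_left h4 hpb

/-! ### crossings -/

theorem last_le {y : ℝ → ℝ} {a b η : ℝ} (hab : a ≤ b) (hc : ContinuousOn y (Icc a b))
    (h1 : y a ≤ η) (h2 : η ≤ y b) :
    ∃ u ∈ Icc a b, y u = η ∧ ∀ τ ∈ Ioc u b, η < y τ := by
  have hS : IsCompact {τ ∈ Icc a b | y τ ≤ η} := by
    have : IsClosed {τ ∈ Icc a b | y τ ≤ η} := hc.preimage_isClosed_of_isClosed isClosed_Icc isClosed_Iic
    exact isCompact_Icc.of_isClosed_subset this (fun x hx => hx.1)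
  obtain ⟨u, hu, hmax⟩ := hS.exists_isGreatest ⟨a, left_mem_Icc.2 hab, h1⟩
  refine ⟨u, hu.1, ?_, ?_⟩
  · by_contra hne
    have hlt : y u < η := lt_of_le_of_ne hu.2 hne
    obtain ⟨τ, hτ, hτη⟩ := intermediate_value_Icc hu.1.2 (hc.mono (Icc_subset_Icc hu.1.1 le_rfl))
      (⟨hlt.le, h2⟩ : η ∈ Icc (y u) (y b))
    have h3 : τ ≤ u := hmax ⟨⟨hu.1.1.trans hτ.1, hτ.2⟩, hτη.le⟩
    have h4 : τ = u := le_antisymm h3 hτ.1
    rw [h4] at hτη
    exact hlt.ne hτη
  · intro τ hτ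
    by_contra hcon
    have := hmax ⟨⟨hu.1.1.trans hτ.1.le, hτ.2⟩, not_lt.1 hcon⟩
    exact absurd hτ.1 (not_lt.2 this)

theorem last_ge {y : ℝ → ℝ} {a b η : ℝ} (hab : a ≤ b) (hc : ContinuousOn y (Icc a b))
    (h1 : η ≤ y a) (h2 : y b ≤ η) :
    ∃ u ∈ Icc a b, y u = η ∧ ∀ τ ∈ Ioc u b, y τ < η := by
  obtain ⟨u, hu, hu1, hu2⟩ := last_le (y := fun τ => - y τ) (η := -η) hab hc.neg
    (neg_le_neg h1) (neg_le_neg h2)
  exact ⟨u, hu, neg_inj.1 hu1, fun τ hτ => neg_lt_neg_iff.1 (hu2 τ hτ)⟩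

theorem first_le {y : ℝ → ℝ} {a b η : ℝ} (hab : a ≤ b) (hc : ContinuousOn y (Icc a b))
    (h1 : η ≤ y a) (h2 : y b ≤ η) :
    ∃ u ∈ Icc a b, y u = η ∧ ∀ τ ∈ Ico a u, η < y τ := by
  have hS : IsCompact {τ ∈ Icc a b | y τ ≤ η} := by
    have : IsClosed {τ ∈ Icc a b | y τ ≤ η} := hc.preimage_isClosed_of_isClosed isClosed_Icc isClosed_Iic
    exact isCompact_Icc.of_isClosed_subset this (fun x hx => hx.1)
  obtain ⟨u, hu, hmin⟩ := hS.exists_isLeast ⟨b, right_mem_Icc.2 hab, h2⟩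
  refine ⟨u, hu.1, ?_, ?_⟩
  · by_contra hne
    have hlt : y u < η := lt_of_le_of_ne hu.2 hne
    obtain ⟨τ, hτ, hτη⟩ := intermediate_value_Icc' hu.1.1 (hc.mono (Icc_subset_Icc le_rfl hu.1.2))
      (⟨hlt.le, h1⟩ : η ∈ Icc (y u) (y a))
    have h3 : u ≤ τ := hmin ⟨⟨hτ.1, hτ.2.trans hu.1.2⟩, hτη.le⟩
    have h4 : τ = u := le_antisymm hτ.2 h3
    rw [h4] at hτη
    exact hlt.ne hτη
  · intro τ hτ
    by_contra hcon
    have := hmin ⟨⟨hτ.1, hτ.2.le.trans hu.1.2⟩, not_lt.1 hcon⟩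
    exact absurd hτ.2 (not_lt.2 this)

/-! ### the trajectory -/

/-- the data of the main estimate: `z` solves `z' = 1 / F(z)` in the right half-plane -/
structure Traj (F : ℂ → ℂ) (z : ℝ → ℂ) : Prop where
  dF : DifferentiableOn ℂ F Rp
  pos : ∀ w ∈ Rp, 0 < (F w).re
  mem : ∀ t, 0 ≤ t → z t ∈ Rp
  ode : ∀ t, 0 ≤ t → HasDerivWithinAt z (1 / F (z t)) (Ici 0) t

variable {F : ℂ → ℂ} {z : ℝ → ℂ}

theorem Traj.cont (h : Traj F z) : ContinuousOn z (Ici 0) := fun t ht =>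
  (h.ode t ht).continuousWithinAt

theorem Traj.right (h : Traj F z) {t : ℝ} (ht : 0 ≤ t) :
    HasDerivWithinAt z (1 / F (z t)) (Ici t) t :=
  (h.ode t ht).mono (Ici_subset_Ici.2 ht)

theorem Traj.ne (h : Traj F z) {w : ℂ} (hw : w ∈ Rp) : F w ≠ 0 := fun h0 => by
  have := h.pos w hw
  rw [h0] at this
  simp at this

theorem Traj.mono (h : Traj F z) {a b : ℝ} (ha : 0 ≤ a) (hab : a ≤ b) : (z a).re ≤ (z b).re := by
  have h1 : MonotoneOn (fun t => (z t).re) (Ici 0) := by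
    have hd : ∀ t ∈ interior (Ici (0 : ℝ)), HasDerivAt (fun t => (z t).re) (1 / F (z t)).re t := by
      intro t ht
      rw [interior_Ici] at ht
      have h2 := (h.ode t (le_of_lt ht)).hasDerivAt (Ici_mem_nhds ht)
      exact (Complex.reCLM.hasFDerivAt.comp_hasDerivAt t h2)
    apply monotoneOn_of_deriv_nonneg (convex_Ici 0)
    · exact Complex.continuous_re.comp_continuousOn h.cont
    · intro t ht
      exact (hd t ht).differentiableAt.differentiableWithinAt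
    · intro t ht
      rw [(hd t ht).deriv]
      rw [interior_Ici] at ht
      have h3 := h.pos _ (h.mem t (le_of_lt ht))
      rw [one_div, Complex.inv_re]
      exact div_nonneg h3.le (Complex.normSq_nonneg _)
  exact h1 ha (ha.trans hab) hab

/-- the primitive of `F` -/
theorem Traj.prim (h : Traj F z) (s : ℝ) (hs : 0 ≤ s) :
    ∃ (R : ℝ) (H : ℂ → ℂ), (∀ τ ∈ Icc 0 s, z τ ∈ Metric.ball (R : ℂ) R) ∧
      (∀ w ∈ Metric.ball (R : ℂ) R, w ∈ Rp) ∧
      ∀ w ∈ Metric.ball (R : ℂ) R, HasDerivAt H (F w) w := by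
  have hsub : ∀ R : ℝ, ∀ w ∈ Metric.ball (R : ℂ) R, w ∈ Rp := fun R w hw => by
    rw [Metric.mem_ball, dist_eq_norm] at hw
    have h1 := (Complex.abs_re_le_norm (w - R)).trans_lt hw
    rw [Complex.sub_re, Complex.ofReal_re, abs_lt] at h1
    rw [mem_Rp]
    linarith [h1.1]
  have hK : IsCompact (z '' Icc 0 s) := isCompact_Icc.image_of_continuousOn
    (h.cont.mono Icc_subset_Ici_self)
  obtain ⟨n, hn⟩ := hK.elim_directed_cover (fun n : ℕ => Metric.ball ((n : ℝ) : ℂ) n)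
    (fun n => Metric.isOpen_ball) (by
      rintro _ ⟨τ, hτ, rfl⟩
      have hre : 0 < (z τ).re := h.mem τ hτ.1
      rw [mem_iUnion]
      obtain ⟨n, hn⟩ := exists_nat_gt (‖z τ‖ ^ 2 / (2 * (z τ).re))
      refine ⟨n, ?_⟩
      rw [div_lt_iff₀ (by positivity)] at hn
      have hn0 : (0 : ℝ) ≤ n := Nat.cast_nonneg n
      rw [Metric.mem_ball, dist_eq_norm]
      apply lt_of_pow_lt_pow_left₀ 2 hn0
      have h1 : ‖z τ - ((n : ℝ) : ℂ)‖ ^ 2 = ‖z τ‖ ^ 2 - 2 * n * (z τ).re + n ^ 2 := by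
        rw [← Complex.normSq_eq_norm_sq, ← Complex.normSq_eq_norm_sq, Complex.normSq_apply,
          Complex.normSq_apply]
        simp
        ring
      rw [h1]
      nlinarith) (by
      intro m n
      refine ⟨max m n, ?_, ?_⟩
      all_goals
        apply Metric.ball_subset_ball'
        rw [Complex.dist_eq, ← Complex.ofReal_sub, Complex.norm_real, Real.norm_eq_abs]
      · have : ((max m n : ℕ) : ℝ) ≥ m := by exact_mod_cast le_max_left m n
        rw [abs_sub_comm, abs_of_nonneg (by linarith)]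
        linarith
      · have : ((max m n : ℕ) : ℝ) ≥ n := by exact_mod_cast le_max_right m n
        rw [abs_sub_comm, abs_of_nonneg (by linarith)]
        linarith)
  obtain ⟨H, hH⟩ := (h.dF.mono (hsub n)).isExactOn_ball
  exact ⟨n, H, fun τ hτ => hn (mem_image_of_mem z hτ), hsub n, hH⟩

end Pool.Agent.N535.HM
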