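import Pool.Agent.N535.HM.Core

set_option autoImplicit false

open Filter Topology Set MeasureTheory

namespace Pool.Agent.N535.HM

variable {F : ℂ → ℂ} {z : ℝ → ℂ}

/-- time between two points on the same height -/
theorem Traj.time_le (h : Traj F z) {u d X η : ℝ} (hu : 0 ≤ u) (hud : u ≤ d)
    (hiu : (z u).im = η) (hid : (z d).im = η) (hX : (z d).re ≤ X) :
    ENNReal.ofReal (d - u) ≤ ∫⁻ x in Ioc 0 X, ENNReal.ofReal (F (x + η * Complex.I)).re := by
  have hd : 0 ≤ d := hu.trans hud
  obtain ⟨R, H, hR, hsub, hH⟩ := h.prim d hd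
  have hre : (z u).re ≤ (z d).re := h.mono hu hud
  have hu0 : 0 < (z u).re := h.mem u hu
  -- `H (z τ) - τ` is constant
  have hconst : ∀ τ ∈ Icc u d, H (z τ) - τ = H (z u) - u := by
    apply constant_of_has_deriv_right_zero
    · intro τ hτ
      have h1 : ContinuousWithinAt z (Icc u d) τ :=
        (h.cont τ (hu.trans hτ.1)).mono (fun x hx => hu.trans hx.1)
      have h2 := (hH (z τ) (hR τ ⟨hu.trans hτ.1, hτ.2⟩)).continuousAt
      exact (h2.comp_continuousWithinAt h1).sub Complex.continuous_ofReal.continuousWithinAt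
    · intro τ hτ
      have h1 := h.right (hu.trans hτ.1)
      have h2 := hH (z τ) (hR τ ⟨hu.trans hτ.1, hτ.2.le⟩)
      have h3 := h2.comp_hasDerivWithinAt τ h1
      have h4 : HasDerivWithinAt (fun τ : ℝ => (τ : ℂ)) 1 (Ici τ) τ :=
        (Complex.ofRealCLM.hasDerivAt (x := τ)).hasDerivWithinAt
      have h5 := h3.sub h4
      have h6 : F (z τ) * (1 / F (z τ)) - 1 = 0 := by
        have := h.ne (h.mem τ (hu.trans hτ.1))
        field_simp
        ring
      rw [h6] at h5
      exact h5
  have hHd : (H (z d)).re - (H (z u)).re = d - u := by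
    have h1 := hconst d ⟨hud, le_rfl⟩
    have h2 := congrArg Complex.re h1
    simp only [Complex.sub_re, Complex.ofReal_re] at h2
    linarith
  have hzu : z u = ((z u).re : ℂ) + η * Complex.I := by
    rw [← hiu]; exact (Complex.re_add_im _).symm
  have hzd : z d = ((z d).re : ℂ) + η * Complex.I := by
    rw [← hid]; exact (Complex.re_add_im _).symm
  have hseg : ∀ x ∈ Icc (z u).re (z d).re, ((x : ℂ) + η * Complex.I) ∈ Metric.ball (R : ℂ) R := by
    intro x hx
    have hconv := convex_ball (R : ℂ) R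
    have h1 := hR u ⟨hu, hud⟩
    have h2 := hR d ⟨hd, le_rfl⟩
    rcases eq_or_lt_of_le hre with he | hlt
    · have : x = (z u).re := le_antisymm (by rw [he]; exact hx.2) hx.1
      rw [this, ← hzu]
      exact h1
    · have h4 : (z d).re - (z u).re ≠ 0 := by linarith
      obtain ⟨α, hα⟩ : ∃ α : ℝ, α = ((z d).re - x) / ((z d).re - (z u).re) := ⟨_, rfl⟩
      obtain ⟨β, hβ⟩ : ∃ β : ℝ, β = (x - (z u).re) / ((z d).re - (z u).re) := ⟨_, rfl⟩
      have hα0 : 0 ≤ α := by rw [hα]; exact div_nonneg (by linarith [hx.2]) (by linarith)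
      have hβ0 : 0 ≤ β := by rw [hβ]; exact div_nonneg (by linarith [hx.1]) (by linarith)
      have hab : α + β = 1 := by rw [hα, hβ]; field_simp; ring
      have hx2 : α * (z u).re + β * (z d).re = x := by rw [hα, hβ]; field_simp; ring
      have h3 := hconv h1 h2 hα0 hβ0 hab
      convert h3 using 1
      apply Complex.ext
      · simp [← hx2]
      · simp only [Complex.add_im, Complex.ofReal_im, Complex.mul_im, Complex.ofReal_re,
          Complex.I_im, Complex.I_re, mul_one, mul_zero, add_zero, zero_add, Complex.real_smul,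
          zero_mul]
        rw [hiu, hid]
        linear_combination (-η) * hab
  set k : ℝ → ℝ := fun x => (H (x + η * Complex.I)).re with hk
  have hkd : ∀ x ∈ Icc (z u).re (z d).re, HasDerivAt k (F (x + η * Complex.I)).re x := by
    intro x hx
    have h1 := hH _ (hseg x hx)
    have h2 : HasDerivAt (fun x : ℝ => (x : ℂ) + η * Complex.I) 1 x :=
      (Complex.ofRealCLM.hasDerivAt (x := x)).add_const _
    have h3 := h1.comp x h2
    rw [mul_one] at h3
    exact Complex.reCLM.hasFDerivAt.comp_hasDerivAt x h3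
  have hcont : ContinuousOn (fun x : ℝ => (F (x + η * Complex.I)).re) (Icc (z u).re (z d).re) := by
    apply Complex.continuous_re.comp_continuousOn
    apply h.dF.continuousOn.comp
    · fun_prop
    · intro x hx
      exact hsub _ (hseg x hx)
  have hint : IntervalIntegrable (fun x : ℝ => (F (x + η * Complex.I)).re) volume (z u).re (z d).re := by
    apply ContinuousOn.intervalIntegrable
    rwa [uIcc_of_le hre]
  have hftc := intervalIntegral.integral_eq_sub_of_hasDerivAt (f := k)
    (fun x hx => hkd x (by rwa [uIcc_of_le hre] at hx)) hint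
  have hval : d - u = ∫ x in (z u).re..(z d).re, (F (x + η * Complex.I)).re := by
    rw [hftc, hk]
    simp only
    rw [← hzu, ← hzd, hHd]
  rw [hval, intervalIntegral.integral_of_le hre, ofReal_integral_eq_lintegral_ofReal]
  · exact lintegral_mono_set (Ioc_subset_Ioc hu0.le hX)
  · exact hint.1
  · rw [Filter.EventuallyLE, ae_restrict_iff' measurableSet_Ioc]
    refine Eventually.of_forall fun x hx => ?_
    exact (h.pos _ (hsub _ (hseg x ⟨hx.1.le, hx.2⟩))).le

/-- speed estimate on the way down -/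
theorem Traj.speed (h : Traj F z) {a b η η' m : ℝ} (ha : 0 ≤ a) (hab : a ≤ b)
    (hia : (z a).im = η') (hib : (z b).im = η) (hηη : η ≤ η') (hge : ∀ τ ∈ Icc a b, η ≤ (z τ).im)
    (hm : 0 < m) (hbox : ∀ w : ℂ, (z a).re ≤ w.re → w.re ≤ (z b).re → η ≤ w.im → w.im ≤ η' →
      m ≤ (F w).re) : (η' - η) * m ≤ b - a := by
  have hcz : ContinuousOn z (Icc a b) := h.cont.mono (fun x hx => ha.trans hx.1)
  have hcy : ContinuousOn (fun τ => (z τ).im) (Icc a b) := Complex.continuous_im.comp_continuousOn hcz
  obtain ⟨u, hu, hu1, hu2⟩ := last_ge hab hcy hia.ge (hib.le.trans hηη)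
  have hu0 : 0 ≤ u := ha.trans hu.1
  have hbd : ∀ x ∈ Ico u b, ‖1 / F (z x)‖ ≤ 1 / m := by
    intro x hx
    have hx0 : 0 ≤ x := hu0.trans hx.1
    have h1 : m ≤ (F (z x)).re := by
      apply hbox
      · exact h.mono ha (hu.1.trans hx.1)
      · exact h.mono hx0 hx.2.le
      · exact hge x ⟨hu.1.trans hx.1, hx.2.le⟩
      · rcases eq_or_lt_of_le hx.1 with he | hlt
        · rw [← he, hu1]
        · exact (hu2 x ⟨hlt, hx.2.le⟩).le
    rw [norm_div, norm_one]
    apply one_div_le_one_div_of_le hm
    exact h1.trans (Complex.re_le_norm _)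
  have hmv := norm_image_sub_le_of_norm_deriv_right_le_segment (f := z) (a := u) (b := b)
    (hcz.mono (Icc_subset_Icc hu.1 le_rfl)) (fun x hx => h.right (hu0.trans hx.1)) hbd b
    ⟨hu.2, le_rfl⟩
  have h1 : η' - η ≤ ‖z b - z u‖ := by
    have h2 := Complex.abs_im_le_norm (z b - z u)
    rw [Complex.sub_im, hib, hu1, abs_sub_comm] at h2
    exact (le_abs_self _).trans h2
  have h2 : η' - η ≤ 1 / m * (b - u) := h1.trans hmv
  have h3 : (η' - η) * m ≤ b - u := by
    calc (η' - η) * m ≤ 1 / m * (b - u) * m := mul_le_mul_of_nonneg_right h2 hm.le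
      _ = b - u := by field_simp
  linarith [hu.1]

end Pool.Agent.N535.HM
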