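import Mathlib

/-!
# MP_26616c_an: harmonic measure of boundary rays seen from semigroup orbits

Definitions of the statement.
-/

set_option autoImplicit false

open Filter Topology Set

namespace Pool.Agent.N535.HM

/-- the open unit disc -/
def D : Set ℂ := Metric.ball (0 : ℂ) 1

/-- continuous semigroups `(φ t)_{t ≥ 0}` of holomorphic self-maps of the unit disc: `φ 0 = id`,
`φ (t + s) = φ t ∘ φ s`, and `t ↦ φ t` is continuous for locally uniform convergence on `D` -/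
structure IsSemigroup (φ : ℝ → ℂ → ℂ) : Prop where
  maps : ∀ t, 0 ≤ t → MapsTo (φ t) D D
  holo : ∀ t, 0 ≤ t → DifferentiableOn ℂ (φ t) D
  zero : ∀ z ∈ D, φ 0 z = z
  add : ∀ t s, 0 ≤ t → 0 ≤ s → ∀ z ∈ D, φ (t + s) z = φ t (φ s z)
  cont : ∀ t₀, 0 ≤ t₀ → TendstoLocallyUniformlyOn φ (φ t₀) (𝓝[Ici 0] t₀) D

/-- the semigroup is non-elliptic: no point of the disc is fixed by the semigroup -/
def NonElliptic (φ : ℝ → ℂ → ℂ) : Prop := ∀ z ∈ D, ∃ t, 0 ≤ t ∧ φ t z ≠ z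

/-- the Denjoy-Wolff point is `1`: all orbits tend to `1` -/
def DWOne (φ : ℝ → ℂ → ℂ) : Prop := ∀ z ∈ D, Tendsto (fun t => φ t z) atTop (𝓝 1)

/-- the Cayley map `C z = (1 + z) / (1 - z)` of the disc onto the right half-plane -/
noncomputable def C (z : ℂ) : ℂ := (1 + z) / (1 - z)

/-- the orbit of `0` in the half-plane, `z_t = C (φ_t 0)` -/
noncomputable def orb (φ : ℝ → ℂ → ℂ) (t : ℝ) : ℂ := C (φ t 0)

/-- the harmonic measure, seen from a point `w` of the right half-plane, of the union of the two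
boundary rays `{i y : |y| ≥ ρ}`: the Poisson integral of its indicator function -/
noncomputable def hm (ρ : ℝ) (w : ℂ) : ℝ :=
  (1 / Real.pi) * ∫ y in {y : ℝ | ρ ≤ |y|}, w.re / (w.re ^ 2 + (w.im - y) ^ 2)

/-- `m t = inf_{s ≥ t} h_t (z_s)`, where `h_t = hm ρ_t` and `ρ_t = |z_t|` -/
noncomputable def m (φ : ℝ → ℂ → ℂ) (t : ℝ) : ℝ :=
  ⨅ s : Ici t, hm ‖orb φ t‖ (orb φ s)

end Pool.Agent.N535.HM
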