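import Pool.Agent.N535.HM.Core2
import Pool.Agent.N535.HM.Area

set_option autoImplicit false

open Filter Topology Set MeasureTheory

namespace Pool.Agent.N535.HM

variable {F : ℂ → ℂ} {z : ℝ → ℂ}

theorem num_ineq : (90 : ℝ) * (2 + 2701 ^ 2) < (91 / 90) ^ 2700 := by
  have h1 : (2 : ℝ) ≤ (91 / 90) ^ 90 := by
    have := one_add_mul_le_pow (a := (1 / 90 : ℝ)) (by norm_num) 90
    norm_num at this ⊢
  have h2 : ((2 : ℝ)) ^ 30 ≤ ((91 / 90) ^ 90) ^ 30 := by gcongr
  rw [← pow_mul] at h2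
  refine lt_of_lt_of_le ?_ h2
  norm_num

/-- the main estimate: if the orbit starts on the real axis, then its height at time `t` is at most
its height at a later time plus `5404` times the real part at that time -/
theorem Traj.main (h : Traj F z) (h0 : (z 0).im = 0) {t s : ℝ} (ht : 0 ≤ t) (hts : t ≤ s) :
    (z t).im ≤ max (z s).im 0 + 5404 * (z s).re := by
  by_contra hbig
  rw [not_le] at hbig
  have hs : 0 ≤ s := ht.trans hts
  obtain ⟨X, hX⟩ : ∃ X, X = (z s).re := ⟨_, rfl⟩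
  obtain ⟨a, ha⟩ : ∃ a, a = max (z s).im 0 := ⟨_, rfl⟩
  obtain ⟨Y, hY⟩ : ∃ Y, Y = (z t).im := ⟨_, rfl⟩
  rw [← hX, ← ha, ← hY] at hbig
  have hX0 : 0 < X := by rw [hX]; exact h.mem s hs
  have ha0 : 0 ≤ a := by rw [ha]; exact le_max_right _ _
  have hasi : (z s).im ≤ a := by rw [ha]; exact le_max_left _ _
  have hcy : ContinuousOn (fun τ => (z τ).im) (Ici 0) :=
    Complex.continuous_im.comp_continuousOn h.cont
  -- crossing times
  have hup : ∀ η : ℝ, ∃ u : ℝ, a ≤ η → η ≤ Y → (u ∈ Icc 0 t ∧ (z u).im = η ∧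
      ∀ τ ∈ Ioc u t, η < (z τ).im) := by
    intro η
    by_cases hη : a ≤ η ∧ η ≤ Y
    · obtain ⟨u, hu⟩ := last_le (y := fun τ => (z τ).im) (η := η) ht
        (hcy.mono Icc_subset_Ici_self) (by rw [h0]; exact ha0.trans hη.1) (by rw [← hY]; exact hη.2)
      exact ⟨u, fun _ _ => hu⟩
    · exact ⟨0, fun h1 h2 => absurd ⟨h1, h2⟩ hη⟩
  have hdn : ∀ η : ℝ, ∃ d : ℝ, a ≤ η → η ≤ Y → (d ∈ Icc t s ∧ (z d).im = η ∧
      ∀ τ ∈ Ico t d, η < (z τ).im) := by
    intro η
    by_cases hη : a ≤ η ∧ η ≤ Y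
    · obtain ⟨u, hu⟩ := first_le (y := fun τ => (z τ).im) (η := η) hts
        (hcy.mono (fun x hx => ht.trans hx.1)) (by rw [← hY]; exact hη.2) (hasi.trans hη.1)
      exact ⟨u, fun _ _ => hu⟩
    · exact ⟨0, fun h1 h2 => absurd ⟨h1, h2⟩ hη⟩
  choose u hu using hup
  choose d hd using hdn
  have hdanti : ∀ η₁ η₂, a ≤ η₁ → η₁ ≤ η₂ → η₂ ≤ Y → d η₂ ≤ d η₁ := by
    intro η₁ η₂ h1 h12 h2
    obtain ⟨p1, p2, p3⟩ := hd η₁ h1 (h12.trans h2)
    obtain ⟨q1, q2, q3⟩ := hd η₂ (h1.trans h12) h2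
    by_contra hc
    rw [not_le] at hc
    have := q3 (d η₁) ⟨p1.1, hc⟩
    rw [p2] at this
    linarith
  have humono : ∀ η₁ η₂, a ≤ η₁ → η₁ ≤ η₂ → η₂ ≤ Y → u η₁ ≤ u η₂ := by
    intro η₁ η₂ h1 h12 h2
    obtain ⟨p1, p2, p3⟩ := hu η₁ h1 (h12.trans h2)
    obtain ⟨q1, q2, q3⟩ := hu η₂ (h1.trans h12) h2
    by_contra hc
    rw [not_le] at hc
    have := q3 (u η₁) ⟨hc, p1.2⟩
    rw [p2] at this
    linarith
  obtain ⟨ξ, hξ⟩ : ∃ ξ : ℝ → ℝ, ξ = fun η => (z (d η)).re := ⟨_, rfl⟩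
  have hξanti : ∀ η₁ η₂, a ≤ η₁ → η₁ ≤ η₂ → η₂ ≤ Y → ξ η₂ ≤ ξ η₁ := by
    intro η₁ η₂ h1 h12 h2
    rw [hξ]
    have h3 := (hd η₂ (h1.trans h12) h2).1.1
    exact h.mono (ht.trans h3) (hdanti η₁ η₂ h1 h12 h2)
  have hξX : ∀ η, a ≤ η → η ≤ Y → ξ η ≤ X := by
    intro η h1 h2
    rw [hξ, hX]
    have h3 := (hd η h1 h2).1
    exact h.mono (ht.trans h3.1) h3.2
  have hξlow : ∀ η, a ≤ η → η ≤ Y → (z 0).re ≤ ξ η := by
    intro η h1 h2
    rw [hξ]
    have h3 := (hd η h1 h2).1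
    exact h.mono le_rfl (ht.trans h3.1)
  have hx00 : 0 < (z 0).re := h.mem 0 le_rfl
  -- choice of the scale
  have hscale : ∃ η₀, a ≤ η₀ ∧ η₀ ≤ Y ∧ η₀ + 2702 * ξ η₀ ≤ Y ∧ ξ η₀ / 2 ≤ ξ (η₀ + 2702 * ξ η₀) := by
    by_contra hcon
    push Not at hcon
    have hj : ∀ j : ℕ, ∃ η, a ≤ η ∧ η ≤ a + 5404 * X * (1 - (1 / 2) ^ j) ∧ ξ η ≤ X * (1 / 2) ^ j := by
      intro j
      induction j with
      | zero =>
        refine ⟨a, le_rfl, by simp, ?_⟩
        rw [pow_zero, mul_one]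
        exact hξX a le_rfl (by nlinarith)
      | succ j ih =>
        obtain ⟨η, h1, h2, h3⟩ := ih
        have hpw : (0 : ℝ) < (1 / 2) ^ j := by positivity
        have h4 : η + 2702 * ξ η ≤ a + 5404 * X * (1 - (1 / 2) ^ (j + 1)) := by
          rw [pow_succ]
          nlinarith
        have h5 : η + 2702 * ξ η ≤ Y := by
          refine h4.trans ?_
          have : 0 < X * (1 / 2) ^ (j + 1) := by positivity
          nlinarith
        have hηY : η ≤ Y := by
          refine h2.trans ?_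
          have : 0 < X * (1 / 2) ^ j := by positivity
          nlinarith
        have hξ0 : 0 < ξ η := lt_of_lt_of_le hx00 (hξlow η h1 hηY)
        refine ⟨η + 2702 * ξ η, by linarith, h4, ?_⟩
        have h6 := hcon η h1 hηY h5
        rw [pow_succ]
        nlinarith
    obtain ⟨j, hjlt⟩ := exists_pow_lt_of_lt_one (div_pos hx00 hX0) (by norm_num : (1 / 2 : ℝ) < 1)
    obtain ⟨η, h1, h2, h3⟩ := hj j
    have hηY : η ≤ Y := by
      refine h2.trans ?_
      have : 0 < X * (1 / 2) ^ j := by positivity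
      nlinarith
    have h4 := hξlow η h1 hηY
    rw [lt_div_iff₀ hX0] at hjlt
    linarith
  obtain ⟨η₀, hη₀a, hη₀Y0, hη₀Y, hhalf⟩ := hscale
  obtain ⟨X', hX'⟩ : ∃ X', X' = ξ η₀ := ⟨_, rfl⟩
  rw [← hX'] at hη₀Y hhalf
  have hX'0 : 0 < X' := by
    rw [hX']; exact lt_of_lt_of_le hx00 (hξlow η₀ hη₀a hη₀Y0)
  clear hcy hbig
  -- the heights
  obtain ⟨e, he⟩ : ∃ e : ℕ → ℝ, e = fun j : ℕ => η₀ + (j : ℝ) * X' := ⟨_, rfl⟩
  have hea : ∀ j, a ≤ e j := fun j => by
    rw [he]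
    have : 0 ≤ (j : ℝ) * X' := by positivity
    simp only
    linarith
  have hemono : ∀ i j : ℕ, i ≤ j → e i ≤ e j := fun i j hij => by
    rw [he]
    have : (i : ℝ) ≤ j := by exact_mod_cast hij
    simp only
    nlinarith
  have he2702 : ∀ j : ℕ, j ≤ 2702 → e j ≤ η₀ + 2702 * X' := fun j hj => by
    rw [he]
    have : (j : ℝ) ≤ 2702 := by exact_mod_cast hj
    simp only
    nlinarith
  have heY : ∀ j : ℕ, j ≤ 2702 → e j ≤ Y := fun j hj => (he2702 j hj).trans hη₀Y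
  have he0 : e 0 = η₀ := by rw [he]; simp
  have hesucc : ∀ j : ℕ, e (j + 1) = e j + X' := fun j => by
    rw [he]
    simp only
    push_cast
    ring
  have hξe : ∀ j : ℕ, j ≤ 2702 → ξ (e j) ≤ X' ∧ X' / 2 ≤ ξ (e j) := by
    intro j hj
    constructor
    · rw [hX', ← he0]
      exact hξanti _ _ (hea 0) (hemono 0 j (Nat.zero_le j)) (heY j hj)
    · exact hhalf.trans (hξanti _ _ (hea j) (he2702 j hj) hη₀Y)
  obtain ⟨P, hP⟩ : ∃ P : ℕ → ℝ, P = fun j => (F (X' + e j * Complex.I)).re := ⟨_, rfl⟩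
  have hpt : ∀ j, ((X' : ℂ) + e j * Complex.I) ∈ Rp := fun j => by
    rw [mem_Rp]; simpa using hX'0
  have hPpos : ∀ j, 0 < P j := fun j => by rw [hP]; exact h.pos _ (hpt j)
  obtain ⟨T, hT⟩ : ∃ T : ℕ → ℝ, T = fun j => d (e j) - u (e j) := ⟨_, rfl⟩
  have hTpos : ∀ j, j ≤ 2702 → 0 ≤ T j := fun j hj => by
    rw [hT]
    have h1 := (hu (e j) (hea j) (heY j hj)).1
    have h2 := (hd (e j) (hea j) (heY j hj)).1
    simp only
    linarith [h1.2, h2.1]
  -- (i)
  have hi : ∀ j : ℕ, j + 1 ≤ 2702 → T (j + 1) + 2 / 9 * X' * P j ≤ T j := by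
    intro j hj
    have hj' : j ≤ 2702 := by omega
    obtain ⟨p1, p2, p3⟩ := hd (e j) (hea j) (heY j hj')
    obtain ⟨q1, q2, q3⟩ := hd (e (j + 1)) (hea _) (heY _ hj)
    have h1 := hdanti (e j) (e (j + 1)) (hea j) (hemono _ _ (Nat.le_succ j)) (heY _ hj)
    have h2 := humono (e j) (e (j + 1)) (hea j) (hemono _ _ (Nat.le_succ j)) (heY _ hj)
    have h3 := h.speed (a := d (e (j + 1))) (b := d (e j)) (η := e j) (η' := e (j + 1))
      (m := 2 / 9 * P j) (ht.trans q1.1) h1 q2 p2 (hemono _ _ (Nat.le_succ j)) (by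
        intro τ hτ
        rcases eq_or_lt_of_le hτ.2 with heq | hlt
        · rw [heq, p2]
        · exact (p3 τ ⟨q1.1.trans hτ.1, hlt⟩).le) (by have := hPpos j; positivity) (by
        intro w hw1 hw2 hw3 hw4
        have hb1 : X' / 2 ≤ w.re := by
          have := (hξe (j + 1) hj).2
          rw [hξ] at this
          exact this.trans hw1
        have hb2 : w.re ≤ X' := by
          have := (hξe j hj').1
          rw [hξ] at this
          exact hw2.trans this
        have hw0 : 0 < w.re := by linarith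
        have h4 := harnack h.dF h.pos (a := w) (b := X' + e j * Complex.I) hw0 (hpt j)
        have h5 : ‖w - (X' + e j * Complex.I)‖ ^ 2 ≤ 5 / 4 * X' ^ 2 := by
          rw [← Complex.normSq_eq_norm_sq, Complex.normSq_apply]
          simp only [Complex.sub_re, Complex.add_re, Complex.ofReal_re, Complex.mul_re,
            Complex.I_re, Complex.ofReal_im, Complex.I_im, Complex.sub_im, Complex.add_im,
            Complex.mul_im, mul_zero, mul_one, zero_mul, sub_zero, add_zero, zero_add]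
          rw [hesucc] at hw4
          nlinarith
        have h6 : ((X' : ℂ) + e j * Complex.I).re = X' := by simp
        rw [h6] at h4
        have hPj : (F (X' + e j * Complex.I)).re = P j := by rw [hP]
        rw [hPj] at h4
        have h7 := (h.pos w hw0).le
        have h8 : P j * (w.re * X') ≤ (9 / 2 * (w.re * X')) * (F w).re := by
          refine h4.trans (mul_le_mul_of_nonneg_right ?_ h7)
          nlinarith
        have h9 : 0 < w.re * X' := by positivity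
        have h10 : (w.re * X') * P j ≤ (w.re * X') * (9 / 2 * (F w).re) := by linarith
        have h11 := le_of_mul_le_mul_left h10 h9
        linarith)
    have h4 : e (j + 1) - e j = X' := by rw [hesucc]; ring
    rw [h4] at h3
    rw [hT]
    simp only
    nlinarith
  -- (ii)
  have hii : ∀ j : ℕ, j + 1 ≤ 2702 → T (j + 1) ≤ 20 * X' * P j := by
    intro j hj
    have hj' : j ≤ 2702 := by omega
    have h1 : ∀ η ∈ Ioc (e j) (e j + X'), ENNReal.ofReal (T (j + 1)) ≤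
        ∫⁻ x in Ioc 0 X', ENNReal.ofReal (F (x + η * Complex.I)).re := by
      intro η hη
      rw [← hesucc] at hη
      have ha1 : a ≤ η := (hea j).trans hη.1.le
      have hY1 : η ≤ Y := hη.2.trans (heY _ hj)
      obtain ⟨p1, p2, p3⟩ := hd η ha1 hY1
      obtain ⟨q1, q2, q3⟩ := hu η ha1 hY1
      have h2 : ξ η ≤ X' := (hξanti _ _ (hea j) hη.1.le hY1).trans (hξe j hj').1
      rw [hξ] at h2
      refine le_trans (ENNReal.ofReal_le_ofReal ?_) (h.time_le q1.1 (q1.2.trans p1.1) q2 p2 h2)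
      have h3 := hdanti η (e (j + 1)) ha1 hη.2 (heY _ hj)
      have h4 := humono η (e (j + 1)) ha1 hη.2 (heY _ hj)
      rw [hT]
      simp only
      linarith
    have h2 : ∫⁻ _ in Ioc (e j) (e j + X'), ENNReal.ofReal (T (j + 1)) ≤
        ∫⁻ η in Ioc (e j) (e j + X'), ∫⁻ x in Ioc 0 X', ENNReal.ofReal (F (x + η * Complex.I)).re :=
      setLIntegral_mono' measurableSet_Ioc h1
    have h3 := h2.trans (area h.dF h.pos (y0 := e j) hX'0)
    rw [setLIntegral_const, Real.volume_Ioc, add_sub_cancel_left,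
      ← ENNReal.ofReal_mul (hTpos _ hj)] at h3
    have hPj : (F (X' + e j * Complex.I)).re = P j := by rw [hP]
    rw [hPj, ENNReal.ofReal_le_ofReal_iff (by have := hPpos j; positivity)] at h3
    have h4 : X' * T (j + 1) ≤ X' * (20 * X' * P j) := by nlinarith
    exact le_of_mul_le_mul_left h4 hX'0
  -- (iii)
  have hiii : ∀ j : ℕ, P 0 ≤ (2 + (j : ℝ) ^ 2) * P j := by
    intro j
    have h4 := harnack h.dF h.pos (a := X' + e j * Complex.I) (b := X' + e 0 * Complex.I)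
      (hpt j) (hpt 0)
    have h5 : ‖((X' : ℂ) + e j * Complex.I) - (X' + e 0 * Complex.I)‖ ^ 2 = (j : ℝ) ^ 2 * X' ^ 2 := by
      rw [← Complex.normSq_eq_norm_sq, Complex.normSq_apply, he]
      simp
      ring
    have h6 : ∀ i, ((X' : ℂ) + e i * Complex.I).re = X' := fun i => by simp
    have hPj : ∀ i, (F (X' + e i * Complex.I)).re = P i := fun i => by rw [hP]
    rw [h6, h6, h5, hPj, hPj] at h4
    have h9 : 0 < X' * X' := by positivity
    have h10 : (X' * X') * P 0 ≤ (X' * X') * ((2 + (j : ℝ) ^ 2) * P j) := by nlinarith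
    exact le_of_mul_le_mul_left h10 h9
  -- exponential decay
  have hstep : ∀ j : ℕ, j + 1 ≤ 2702 → 91 / 90 * T (j + 1) ≤ T j := by
    intro j hj
    have h1 := hi j hj
    have h2 := hii j hj
    nlinarith
  have hexp : ∀ n : ℕ, n + 1 ≤ 2702 → (91 / 90) ^ n * T (n + 1) ≤ T 1 := by
    intro n
    induction n with
    | zero => intro _; simp
    | succ n ih =>
      intro hn
      have h1 := ih (by omega)
      have h2 := hstep (n + 1) hn
      have h3 : (0 : ℝ) < (91 / 90) ^ n := by positivity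
      calc (91 / 90) ^ (n + 1) * T (n + 1 + 1) = (91 / 90) ^ n * (91 / 90 * T (n + 1 + 1)) := by ring
        _ ≤ (91 / 90) ^ n * T (n + 1) := mul_le_mul_of_nonneg_left h2 h3.le
        _ ≤ T 1 := h1
  have hA := hexp 2700 (by norm_num)
  have hB := hi 2701 (by norm_num)
  have hC := hTpos (2701 + 1) (by norm_num)
  have hD := hii 0 (by norm_num)
  have hE := hiii 2701
  have hN := num_ineq
  have hP0 := hPpos 0
  have hP1 := hPpos 2701
  obtain ⟨q, hq⟩ : ∃ q : ℝ, q = (91 / 90) ^ 2700 := ⟨_, rfl⟩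
  rw [← hq] at hA hN
  have hq0 : 0 < q := by rw [hq]; positivity
  have h1 : q * (2 / 9 * X' * P 2701) ≤ 20 * X' * P 0 := by
    calc q * (2 / 9 * X' * P 2701) ≤ q * T (2700 + 1) :=
          mul_le_mul_of_nonneg_left (by
            have : T (2700 + 1) = T 2701 := rfl
            rw [this]; linarith) hq0.le
      _ ≤ T 1 := hA
      _ ≤ _ := hD
  have h2 : q * P 2701 ≤ 90 * P 0 := by
    have h3 : X' * (q * P 2701) ≤ X' * (90 * P 0) := by nlinarith
    exact le_of_mul_le_mul_left h3 hX'0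
  have h3 : q * P 2701 ≤ 90 * ((2 + 2701 ^ 2) * P 2701) := by
    refine h2.trans ?_
    push_cast at hE
    linarith
  have h4 : P 2701 * q ≤ P 2701 * (90 * (2 + 2701 ^ 2)) := by linarith
  exact absurd (le_of_mul_le_mul_left h4 hP1) (not_le.2 hN)

end Pool.Agent.N535.HM
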