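import Pool.Agent.N535.HM.Julia
import Pool.Agent.N535.HM.Main

set_option autoImplicit false

open Filter Topology Set MeasureTheory Metric
open scoped ComplexConjugate

namespace Pool.Agent.N535.HM

variable {φ : ℝ → ℂ → ℂ}

theorem zero_mem_D : (0 : ℂ) ∈ D := by simp [D]

theorem Traj.conj {F : ℂ → ℂ} {z : ℝ → ℂ} (h : Traj F z) :
    Traj (fun w => conj (F (conj w))) (fun t => conj (z t)) where
  dF := by
    intro w hw
    have hw' : conj w ∈ Rp := by rw [mem_Rp, Complex.conj_re]; exact hw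
    have h1 := (h.dF _ hw').differentiableAt (isOpen_Rp.mem_nhds hw')
    have h2 := h1.conj_conj
    rw [Complex.conj_conj] at h2
    exact h2.differentiableWithinAt
  pos := by
    intro w hw
    have hw' : conj w ∈ Rp := by rw [mem_Rp, Complex.conj_re]; exact hw
    rw [Complex.conj_re]
    exact h.pos _ hw'
  mem := by
    intro t ht
    rw [mem_Rp, Complex.conj_re]
    exact h.mem t ht
  ode := by
    intro t ht
    have h1 := h.ode t ht
    have h2 := (Complex.conjCLE.toContinuousLinearMap.hasFDerivAt (x := z t)).comp_hasDerivWithinAt t h1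
    simp only [Complex.conj_conj]
    have h3 : (1 : ℂ) / conj (F (z t)) = conj (1 / F (z t)) := by simp
    rw [h3]
    exact h2

theorem orb_re_pos (h : IsSemigroup φ) {t : ℝ} (ht : 0 ≤ t) : 0 < (orb φ t).re :=
  C_mem (h.maps t ht zero_mem_D)

theorem orb_re_mono (h : IsSemigroup φ) (hdw : DWOne φ) {t s : ℝ} (ht : 0 ≤ t) (hts : t ≤ s) :
    (orb φ t).re ≤ (orb φ s).re := by
  have h1 := h.julia hdw (t := s - t) (by linarith) (h.maps t ht zero_mem_D)
  rw [← h.add (s - t) t (by linarith) ht 0 zero_mem_D, sub_add_cancel] at h1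
  exact h1

theorem orb_zero (h : IsSemigroup φ) : orb φ 0 = 1 := by
  rw [orb, h.zero 0 zero_mem_D, C]; simp

theorem orb_im (h : IsSemigroup φ) (hdw : DWOne φ) {t s : ℝ} (ht : 0 ≤ t) (hts : t ≤ s) :
    |(orb φ t).im| ≤ |(orb φ s).im| + 5404 * (orb φ s).re := by
  have hs : 0 ≤ s := ht.trans hts
  rcases h.dichotomy hdw with hpos | ⟨c, hc, hconst⟩
  · have hT : Traj (fun w => 1 / Gen φ w) (orb φ) :=
      { dF := by
          intro w hw
          have h1 : Gen φ w ≠ 0 := fun h0 => by
            have := hpos w hw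
            rw [h0] at this
            simp at this
          exact (differentiableWithinAt_const 1).div (h.Gen_diff w hw) h1
        pos := by
          intro w hw
          have h1 := hpos w hw
          have h2 : Gen φ w ≠ 0 := fun h0 => by
            rw [h0] at h1
            simp at h1
          rw [one_div, Complex.inv_re]
          exact div_pos h1 (Complex.normSq_pos.2 h2)
        mem := fun t ht => orb_re_pos h ht
        ode := by
          intro t ht
          rw [one_div_one_div]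
          exact h.Ode zero_mem_D ht }
    have h0 : (orb φ 0).im = 0 := by rw [orb_zero h]; simp
    have h1 := hT.main h0 ht hts
    have h2 := hT.conj.main (by simp [h0]) ht hts
    simp only [Complex.conj_im, Complex.conj_re] at h2
    rw [abs_le]
    have h3 := le_abs_self (orb φ s).im
    have h4 := neg_abs_le (orb φ s).im
    have h5 := abs_nonneg (orb φ s).im
    constructor
    · have : max (-(orb φ s).im) 0 ≤ |(orb φ s).im| := max_le (by linarith) h5
      linarith
    · have : max (orb φ s).im 0 ≤ |(orb φ s).im| := max_le h3 h5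
      linarith
  · -- the generator is a constant
    have hconst2 : ∀ τ, 0 ≤ τ → orb φ τ = 1 + c * τ := by
      intro τ hτ
      have h1 : ∀ x ∈ Icc (0 : ℝ) τ, orb φ x - c * x = orb φ 0 - c * (0 : ℝ) := by
        apply constant_of_has_deriv_right_zero
        · intro x hx
          have h2 := (h.Ode zero_mem_D hx.1).continuousWithinAt.mono (fun y (hy : y ∈ Icc 0 τ) => mem_Ici.2 hy.1)
          apply h2.sub
          exact (Continuous.continuousWithinAt (by fun_prop))
        · intro x hx
          have h2 := (h.Ode zero_mem_D hx.1).mono (Ici_subset_Ici.2 hx.1)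
          rw [hconst _ (C_mem (h.maps x hx.1 zero_mem_D))] at h2
          have h3 : HasDerivWithinAt (fun x : ℝ => c * (x : ℂ)) c (Ici x) x := by
            have h4 := ((Complex.ofRealCLM.hasDerivAt (x := x)).const_mul c).hasDerivWithinAt
              (s := Ici x)
            simpa using h4
          have h5 := h2.sub h3
          rw [sub_self] at h5
          exact h5
      have h2 := h1 τ ⟨hτ, le_rfl⟩
      rw [orb_zero h] at h2
      have h3 : orb φ τ = 1 - c * (0 : ℝ) + c * τ := by linear_combination h2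
      rw [h3]
      simp
    have him : ∀ τ, 0 ≤ τ → |(orb φ τ).im| = |c.im| * τ := by
      intro τ hτ
      rw [hconst2 τ hτ]
      simp only [Complex.add_im, Complex.one_im, Complex.mul_im, Complex.ofReal_re,
        Complex.ofReal_im, mul_zero, zero_add]
      rw [abs_mul, abs_of_nonneg hτ]
    rw [him t ht, him s hs]
    have h1 := orb_re_pos h hs
    have h2 := abs_nonneg c.im
    nlinarith [mul_le_mul_of_nonneg_left hts h2]

theorem orb_norm (h : IsSemigroup φ) (hdw : DWOne φ) {t s : ℝ} (ht : 0 ≤ t) (hts : t ≤ s) :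
    ‖orb φ t‖ ≤ |(orb φ s).im| + 5405 * (orb φ s).re := by
  have h1 := Complex.norm_le_abs_re_add_abs_im (orb φ t)
  have h2 := orb_im h hdw ht hts
  have h3 := orb_re_mono h hdw ht hts
  rw [abs_of_pos (orb_re_pos h ht)] at h1
  linarith

/-! ### the Poisson kernel -/

theorem pois_eq {w : ℂ} (hw : 0 < w.re) (y : ℝ) :
    w.re / (w.re ^ 2 + (w.im - y) ^ 2) = w.re⁻¹ * (1 + ((y - w.im) / w.re) ^ 2)⁻¹ := by
  field_simp
  ring

theorem pois_integrable {w : ℂ} (hw : 0 < w.re) :
    Integrable (fun y : ℝ => w.re / (w.re ^ 2 + (w.im - y) ^ 2)) := by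
  have h1 : Integrable (fun y : ℝ => (1 + ((y - w.im) / w.re) ^ 2)⁻¹) := by
    have h2 := (integrable_inv_one_add_sq.comp_div hw.ne').comp_sub_right w.im
    exact h2
  have h2 := h1.const_mul w.re⁻¹
  refine h2.congr (Eventually.of_forall fun y => ?_)
  simp only
  rw [pois_eq hw]

theorem pois_integral {w : ℂ} (hw : 0 < w.re) :
    ∫ y : ℝ, w.re / (w.re ^ 2 + (w.im - y) ^ 2) = Real.pi := by
  simp_rw [pois_eq hw]
  rw [integral_const_mul]
  have h1 : ∫ y : ℝ, (1 + ((y - w.im) / w.re) ^ 2)⁻¹ = w.re * Real.pi := by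
    have h2 := integral_sub_right_eq_self (μ := volume) (fun y : ℝ => (1 + (y / w.re) ^ 2)⁻¹) w.im
    rw [h2, Measure.integral_comp_div (fun y : ℝ => (1 + y ^ 2)⁻¹) w.re, integral_univ_inv_one_add_sq,
      abs_of_pos hw, smul_eq_mul]
  rw [h1]
  field_simp

theorem pois_nonneg {w : ℂ} (hw : 0 < w.re) (y : ℝ) :
    0 ≤ w.re / (w.re ^ 2 + (w.im - y) ^ 2) := by positivity

theorem hm_nonneg {w : ℂ} (hw : 0 < w.re) (ρ : ℝ) : 0 ≤ hm ρ w := by
  rw [hm]
  apply mul_nonneg (by positivity)
  exact integral_nonneg fun y => pois_nonneg hw y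

theorem hm_le_one {w : ℂ} (hw : 0 < w.re) (ρ : ℝ) : hm ρ w ≤ 1 := by
  rw [hm]
  have h1 : ∫ y in {y : ℝ | ρ ≤ |y|}, w.re / (w.re ^ 2 + (w.im - y) ^ 2) ≤ Real.pi := by
    rw [← pois_integral hw]
    exact setIntegral_le_integral (pois_integrable hw) (Eventually.of_forall fun y => pois_nonneg hw y)
  rw [one_div, inv_mul_le_iff₀ Real.pi_pos, mul_one]
  exact h1

theorem hm_ge {w : ℂ} (hw : 0 < w.re) {ρ : ℝ} (hρ : ρ ≤ |w.im| + 5405 * w.re) :
    1 / 100000 ≤ hm ρ w := by
  obtain ⟨x, hx⟩ : ∃ x, x = w.re := ⟨_, rfl⟩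
  obtain ⟨y, hy⟩ : ∃ y, y = w.im := ⟨_, rfl⟩
  have hint := pois_integrable hw
  rw [hm]
  rw [← hx, ← hy] at hρ
  rw [← hx] at hw
  simp only [← hx, ← hy] at hint ⊢
  -- an interval `[b, b + 5405 x]` on which the kernel is at least `1 / (x (1 + 10810²))`
  have key : ∀ b : ℝ, (∀ η ∈ Icc b (b + 5405 * x), ρ ≤ |η| ∧ (y - η) ^ 2 ≤ (10810 * x) ^ 2) →
      1 / 100000 ≤ 1 / Real.pi * ∫ η in {η : ℝ | ρ ≤ |η|}, x / (x ^ 2 + (y - η) ^ 2) := by
    intro b hb
    have hsub : Icc b (b + 5405 * x) ⊆ {η : ℝ | ρ ≤ |η|} := fun η hη => (hb η hη).1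
    have h1 : ∫ η in Icc b (b + 5405 * x), x / (x ^ 2 + (y - η) ^ 2) ≤
        ∫ η in {η : ℝ | ρ ≤ |η|}, x / (x ^ 2 + (y - η) ^ 2) := by
      apply setIntegral_mono_set hint.integrableOn
      · exact Eventually.of_forall fun η => by positivity
      · exact hsub.eventuallyLE
    have h2 : ∫ _ in Icc b (b + 5405 * x), x / (x ^ 2 + (10810 * x) ^ 2) ≤
        ∫ η in Icc b (b + 5405 * x), x / (x ^ 2 + (y - η) ^ 2) := by
      apply setIntegral_mono_on
      · exact integrableOn_const (by rw [Real.volume_Icc]; exact ENNReal.ofReal_ne_top)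
      · exact hint.integrableOn
      · exact measurableSet_Icc
      · intro η hη
        have h3 := (hb η hη).2
        gcongr
    rw [setIntegral_const, measureReal_def, Real.volume_Icc, ENNReal.toReal_ofReal (by linarith),
      add_sub_cancel_left, smul_eq_mul] at h2
    have h3 : 5405 * x * (x / (x ^ 2 + (10810 * x) ^ 2)) = 5405 / (1 + 10810 ^ 2) := by
      field_simp
    rw [h3] at h2
    have h4 := h2.trans h1
    have h5 : Real.pi < 3.15 := Real.pi_lt_d2
    have h6 := Real.pi_pos
    rw [one_div_mul_eq_div, le_div_iff₀ h6]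
    refine le_trans ?_ h4
    have h7 : 1 / 100000 * Real.pi ≤ 1 / 100000 * 3.15 := by gcongr
    refine h7.trans ?_
    norm_num
  rcases le_or_gt 0 y with hy0 | hy0
  · rw [abs_of_nonneg hy0] at hρ
    apply key (y + 5405 * x)
    intro η hη
    have h1 := hη.1
    have h2 := hη.2
    constructor
    · exact hρ.trans (h1.trans (le_abs_self η))
    · nlinarith
  · rw [abs_of_neg hy0] at hρ
    apply key (y - 10810 * x)
    intro η hη
    have h1 := hη.1
    have h2 := hη.2
    constructor
    · have : -η ≤ |η| := neg_le_abs η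
      linarith
    · nlinarith

theorem main_bound (h : IsSemigroup φ) (hdw : DWOne φ) {t s : ℝ} (ht : 0 ≤ t) (hts : t ≤ s) :
    1 / 100000 ≤ hm ‖orb φ t‖ (orb φ s) :=
  hm_ge (orb_re_pos h (ht.trans hts)) (orb_norm h hdw ht hts)

theorem m_ge (h : IsSemigroup φ) (hdw : DWOne φ) {t : ℝ} (ht : 0 ≤ t) : 1 / 100000 ≤ m φ t := by
  rw [m]
  have : Nonempty (Ici t) := ⟨⟨t, mem_Ici.2 le_rfl⟩⟩
  exact le_ciInf fun s => main_bound h hdw ht s.2

theorem m_le (h : IsSemigroup φ) {t : ℝ} (ht : 0 ≤ t) : m φ t ≤ 1 := by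
  rw [m]
  refine (ciInf_le ⟨0, ?_⟩ (⟨t, mem_Ici.2 le_rfl⟩ : Ici t)).trans (hm_le_one (orb_re_pos h ht) _)
  rintro _ ⟨s, rfl⟩
  exact hm_nonneg (orb_re_pos h (ht.trans s.2)) _

theorem liminf_ge (h : IsSemigroup φ) (hdw : DWOne φ) : 1 / 100000 ≤ liminf (m φ) atTop := by
  apply le_liminf_of_le
  · apply IsBoundedUnder.isCoboundedUnder_ge
    exact ⟨1, by
      rw [eventually_map]
      filter_upwards [eventually_ge_atTop 0] with t ht
      exact m_le h ht⟩
  · filter_upwards [eventually_ge_atTop 0] with t ht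
    exact m_ge h hdw ht

end Pool.Agent.N535.HM
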