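import Pool.Agent.N535.HM.Semi
import Pool.Agent.N535.HM.Core

/-!
# Julia's inequality for a semigroup with Denjoy-Wolff point `1`, and the half-plane generator
-/

set_option autoImplicit false

open Filter Topology Set MeasureTheory Metric

namespace Pool.Agent.N535.HM

variable {φ : ℝ → ℂ → ℂ}

/-- the inverse of `C` -/
noncomputable def Ci (w : ℂ) : ℂ := (w - 1) / (w + 1)

theorem ne_one_of_mem_D {z : ℂ} (hz : z ∈ D) : 1 - z ≠ 0 := by
  intro h0
  have h1 : z = 1 := by linear_combination -h0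
  rw [h1, D, mem_ball_zero_iff] at hz
  simp at hz

theorem C_re {z : ℂ} : (C z).re = (1 - ‖z‖ ^ 2) / ‖1 - z‖ ^ 2 := by
  rw [C, Complex.div_re, ← add_div, Complex.normSq_eq_norm_sq (1 - z)]
  congr 1
  rw [← Complex.normSq_eq_norm_sq, Complex.normSq_apply]
  simp
  ring

theorem C_mem {z : ℂ} (hz : z ∈ D) : C z ∈ Rp := by
  have h1 := norm_pos_iff.2 (ne_one_of_mem_D hz)
  rw [D, mem_ball_zero_iff] at hz
  rw [mem_Rp, C_re]
  apply div_pos _ (by positivity)
  nlinarith [norm_nonneg z]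

theorem Rp_ne {w : ℂ} (hw : w ∈ Rp) : w + 1 ≠ 0 := by
  intro h0
  have := congrArg Complex.re h0
  rw [mem_Rp] at hw
  simp at this
  linarith

theorem Ci_mem {w : ℂ} (hw : w ∈ Rp) : Ci w ∈ D := by
  have h1 := Rp_ne hw
  rw [mem_Rp] at hw
  rw [D, mem_ball_zero_iff, Ci, norm_div, div_lt_one (norm_pos_iff.2 h1)]
  apply lt_of_pow_lt_pow_left₀ 2 (norm_nonneg _)
  rw [← Complex.normSq_eq_norm_sq, ← Complex.normSq_eq_norm_sq, Complex.normSq_apply,
    Complex.normSq_apply]
  simp only [Complex.sub_re, Complex.sub_im, Complex.add_re, Complex.add_im, Complex.one_re,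
    Complex.one_im]
  nlinarith

theorem C_Ci {w : ℂ} (hw : w ∈ Rp) : C (Ci w) = w := by
  have h1 := Rp_ne hw
  rw [C, Ci]
  have h2 : 1 - (w - 1) / (w + 1) = 2 / (w + 1) := by field_simp; ring
  rw [h2]
  field_simp
  ring

theorem Ci_C {z : ℂ} (hz : z ∈ D) : Ci (C z) = z := by
  have h1 := ne_one_of_mem_D hz
  rw [C, Ci]
  have h2 : (1 + z) / (1 - z) + 1 = 2 / (1 - z) := by field_simp; ring
  rw [h2]
  field_simp
  ring

theorem C_deriv {z : ℂ} (hz : z ∈ D) : HasDerivAt C (2 / (1 - z) ^ 2) z := by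
  have h1 := ne_one_of_mem_D hz
  have h2 := ((hasDerivAt_id z).const_add 1).div ((hasDerivAt_id z).const_sub 1) h1
  refine HasDerivAt.congr_deriv (f := C) h2 ?_
  simp only [id]
  congr 1
  ring

theorem C_diff : DifferentiableOn ℂ C D := fun _ hz =>
  (C_deriv hz).differentiableAt.differentiableWithinAt

theorem Ci_diff : DifferentiableOn ℂ Ci Rp := fun w hw => by
  have h1 := Rp_ne hw
  apply DifferentiableAt.differentiableWithinAt
  unfold Ci
  fun_prop (disch := assumption)

theorem tendsto_C {u : ℕ → ℂ} (hu : ∀ k, u k ∈ D) (hl : Tendsto u atTop (𝓝 1)) :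
    Tendsto (fun k => ‖C (u k)‖) atTop atTop := by
  have h1 : Tendsto (fun k => ‖1 + u k‖) atTop (𝓝 2) := by
    have := (hl.const_add 1).norm
    norm_num at this
    exact this
  have h2 : Tendsto (fun k => ‖1 - u k‖⁻¹) atTop atTop := by
    apply Tendsto.comp tendsto_inv_nhdsGT_zero
    rw [tendsto_nhdsWithin_iff]
    refine ⟨?_, Eventually.of_forall fun k => ?_⟩
    · have := (hl.const_sub 1).norm
      simpa using this
    · exact norm_pos_iff.2 (ne_one_of_mem_D (hu k))
  have h3 := h1.pos_mul_atTop (by norm_num) h2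
  refine h3.congr fun k => ?_
  rw [C, norm_div, div_eq_mul_inv]

/-- Julia's inequality: the real part in the half-plane does not decrease -/
theorem IsSemigroup.julia (h : IsSemigroup φ) (hdw : DWOne φ) {t : ℝ} (ht : 0 ≤ t) {z : ℂ}
    (hz : z ∈ D) : (C z).re ≤ (C (φ t z)).re := by
  rcases eq_or_lt_of_le ht with h0 | htpos
  · rw [← h0, h.zero z hz]
  -- upper half-plane
  have hmem : ∀ ζ ∈ LW242.Hp, -Complex.I * ζ ∈ Rp := fun ζ hζ => by
    have : 0 < ζ.im := hζ
    rw [mem_Rp]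
    simp only [Complex.mul_re, Complex.neg_re, Complex.I_re, Complex.neg_im, Complex.I_im]
    linarith
  obtain ⟨g, hg⟩ : ∃ g : ℂ → ℂ, g = fun ζ => Complex.I * C (φ t (Ci (-Complex.I * ζ))) := ⟨_, rfl⟩
  have hgd : DifferentiableOn ℂ g LW242.Hp := by
    rw [hg]
    apply DifferentiableOn.const_mul
    apply C_diff.comp (t := D)
    · apply (h.holo t ht).comp (t := D)
      · apply Ci_diff.comp (t := Rp)
        · exact (differentiable_id.const_mul _).differentiableOn
        · exact hmem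
      · intro ζ hζ
        exact Ci_mem (hmem ζ hζ)
    · intro ζ hζ
      exact h.maps t ht (Ci_mem (hmem ζ hζ))
  have him : ∀ w : ℂ, (Complex.I * w).im = w.re := fun w => by simp [Complex.mul_im]
  have hgi : ∀ ζ ∈ LW242.Hp, 0 ≤ (g ζ).im := by
    intro ζ hζ
    rw [hg]
    simp only
    rw [him]
    exact le_of_lt (C_mem (h.maps t ht (Ci_mem (hmem ζ hζ))))
  have hII : ∀ w : ℂ, -Complex.I * (Complex.I * w) = w := fun w => by
    rw [← mul_assoc, neg_mul, Complex.I_mul_I]; ring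
  obtain ⟨v, hv⟩ : ∃ v : ℕ → ℂ, v = fun k : ℕ => φ ((k : ℝ) * t) z := ⟨_, rfl⟩
  have hvD : ∀ k, v k ∈ D := fun k => by rw [hv]; exact h.maps _ (by positivity) hz
  have hvl : Tendsto v atTop (𝓝 1) := by
    rw [hv]
    exact (hdw z hz).comp (tendsto_natCast_atTop_atTop.atTop_mul_const htpos)
  have hvs : ∀ k, v (k + 1) = φ t (v k) := fun k => by
    rw [hv]
    simp only
    rw [← h.add t (k * t) ht (by positivity) z hz]
    congr 1
    push_cast
    ring
  obtain ⟨w, hw⟩ : ∃ w : ℕ → ℂ, w = fun k => Complex.I * C (v k) := ⟨_, rfl⟩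
  have hwHp : ∀ k, w k ∈ LW242.Hp := fun k => by
    show 0 < (w k).im
    rw [hw]
    simp only
    rw [him]
    exact C_mem (hvD k)
  have hws : ∀ k, g (w k) = w (k + 1) := fun k => by
    rw [hg, hw]
    simp only
    rw [hII, Ci_C (hvD k), hvs]
  have hwn : Tendsto (fun k => ‖w k‖) atTop atTop := by
    have := tendsto_C hvD hvl
    refine this.congr fun k => ?_
    rw [hw]
    simp
  obtain ⟨a, ha⟩ : ∃ a : ℕ → ℝ, a = fun k => (w k).im / ‖w k‖ ^ 2 := ⟨_, rfl⟩
  have hwpos : ∀ k, 0 < ‖w k‖ := fun k => by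
    have : 0 < (w k).im := hwHp k
    exact lt_of_lt_of_le this ((le_abs_self _).trans (Complex.abs_im_le_norm _))
  have hapos : ∀ k, 0 < a k := fun k => by
    rw [ha]
    have h1 : 0 < (w k).im := hwHp k
    have h2 := hwpos k
    simp only
    positivity
  have hal : Tendsto a atTop (𝓝 0) := by
    have h1 : Tendsto (fun k => ‖w k‖⁻¹) atTop (𝓝 0) := tendsto_inv_atTop_zero.comp hwn
    apply squeeze_zero (fun k => (hapos k).le) (fun k => ?_) h1
    rw [ha]
    have h2 := hwpos k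
    have h3 : (w k).im ≤ ‖w k‖ := (le_abs_self _).trans (Complex.abs_im_le_norm _)
    simp only
    rw [div_le_iff₀ (by positivity)]
    have : ‖w k‖⁻¹ * ‖w k‖ ^ 2 = ‖w k‖ := by field_simp
    rw [this]
    exact h3
  have hfreq : ∃ᶠ k in atTop, a (k + 1) / a k ∈ Icc (0 : ℝ) 1 := by
    by_contra hcon
    rw [not_frequently] at hcon
    obtain ⟨N, hN⟩ := eventually_atTop.1 hcon
    have h1 : ∀ k, N ≤ k → a k < a (k + 1) := by
      intro k hk
      by_contra hc
      rw [not_lt] at hc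
      apply hN k hk
      exact ⟨div_nonneg (hapos _).le (hapos _).le, (div_le_one (hapos k)).2 hc⟩
    have h2 : ∀ k, N ≤ k → a N ≤ a k := by
      intro k hk
      induction k, hk using Nat.le_induction with
      | base => exact le_rfl
      | succ k hk ih => exact ih.trans (h1 k hk).le
    have h3 : a N ≤ 0 := ge_of_tendsto hal (eventually_atTop.2 ⟨N, fun k hk => h2 k hk⟩)
    exact absurd h3 (not_le.2 (hapos N))
  obtain ⟨β, hβ, σ, hσ, hlim⟩ := isCompact_Icc.tendsto_subseq' hfreq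
  have hj := LW242.jinf g β (fun n => w (σ n)) hgd hgi (fun n => hwHp _)
    (hwn.comp hσ.tendsto_atTop) (by
      have h1 : Tendsto (fun n => ‖w (σ n + 1)‖) atTop atTop :=
        hwn.comp ((tendsto_add_atTop_nat 1).comp hσ.tendsto_atTop)
      refine h1.congr fun n => ?_
      rw [hws]) (by
      refine hlim.congr fun n => ?_
      simp only [Function.comp]
      rw [hws, ha]) (Complex.I * C z) (by
        show 0 < (Complex.I * C z).im
        rw [him]
        exact C_mem hz)
  have hz1 : g (Complex.I * C z) = Complex.I * C (φ t z) := by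
    rw [hg]
    simp only
    rw [hII, Ci_C hz]
  rw [hz1, him, him] at hj
  refine hj.trans ?_
  have h1 : 0 < (C (φ t z)).re := C_mem (h.maps t ht hz)
  nlinarith [hβ.2]

/-- the generator in the half-plane -/
noncomputable def Gen (φ : ℝ → ℂ → ℂ) (w : ℂ) : ℂ := 2 / (1 - Ci w) ^ 2 * gen φ (Ci w)

theorem IsSemigroup.Gen_diff (h : IsSemigroup φ) : DifferentiableOn ℂ (Gen φ) Rp := by
  have h1 : DifferentiableOn ℂ (fun w => gen φ (Ci w)) Rp := h.gen_diff.comp Ci_diff
    (fun w hw => Ci_mem hw)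
  intro w hw
  have h2 := (h1 w hw).differentiableAt (isOpen_Rp.mem_nhds hw)
  have h3 := (Ci_diff w hw).differentiableAt (isOpen_Rp.mem_nhds hw)
  have h4 : (1 - Ci w) ^ 2 ≠ 0 := pow_ne_zero 2 (ne_one_of_mem_D (Ci_mem hw))
  apply DifferentiableAt.differentiableWithinAt
  unfold Gen
  apply DifferentiableAt.mul _ h2
  fun_prop (disch := assumption)

theorem IsSemigroup.Ode (h : IsSemigroup φ) {z : ℂ} (hz : z ∈ D) {t : ℝ} (ht : 0 ≤ t) :
    HasDerivWithinAt (fun t => C (φ t z)) (Gen φ (C (φ t z))) (Ici 0) t := by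
  have hmem := h.maps t ht hz
  have h1 := (C_deriv hmem).comp_hasDerivWithinAt t (h.ode hz ht)
  rw [Gen, Ci_C hmem]
  exact h1

theorem IsSemigroup.Gen_re (h : IsSemigroup φ) (hdw : DWOne φ) {w : ℂ} (hw : w ∈ Rp) :
    0 ≤ (Gen φ w).re := by
  have hz := Ci_mem hw
  have h1 := h.Ode hz (t := 0) le_rfl
  rw [h.zero _ hz, C_Ci hw] at h1
  have h2 : HasDerivWithinAt (fun t => (C (φ t (Ci w))).re) (Gen φ w).re (Ici 0) 0 :=
    Complex.reCLM.hasFDerivAt.comp_hasDerivWithinAt (0 : ℝ) h1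
  rw [hasDerivWithinAt_iff_tendsto_slope, Ici_sdiff_left] at h2
  apply ge_of_tendsto h2
  filter_upwards [self_mem_nhdsWithin] with t ht
  rw [slope_def_field]
  have ht0 : (0 : ℝ) ≤ t := le_of_lt ht
  apply div_nonneg _ (by linarith)
  have h3 := h.julia hdw ht0 hz
  simp only [h.zero _ hz]
  linarith

/-- either the generator has positive real part or it is a purely imaginary constant -/
theorem IsSemigroup.dichotomy (h : IsSemigroup φ) (hdw : DWOne φ) :
    (∀ w ∈ Rp, 0 < (Gen φ w).re) ∨ ∃ c : ℂ, c.re = 0 ∧ ∀ w ∈ Rp, Gen φ w = c := by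
  have han : AnalyticOnNhd ℂ (Gen φ) Rp := h.Gen_diff.analyticOnNhd isOpen_Rp
  have hpre : IsPreconnected Rp := (convex_halfSpace_re_gt 0).isPreconnected
  have h1R : (1 : ℂ) ∈ Rp := by simp [mem_Rp]
  rcases han.is_constant_or_isOpen hpre with ⟨c, hc⟩ | hopen
  · rcases eq_or_lt_of_le (h.Gen_re hdw h1R) with h0 | hpos
    · right
      refine ⟨c, ?_, hc⟩
      rw [← hc 1 h1R]
      exact h0.symm
    · left
      intro w hw
      rw [hc w hw, ← hc 1 h1R]
      exact hpos
  · left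
    have h2 := hopen Rp Subset.rfl isOpen_Rp
    have h3 : Gen φ '' Rp ⊆ interior {w : ℂ | 0 ≤ w.re} := by
      apply interior_maximal _ h2
      rintro _ ⟨w, hw, rfl⟩
      exact h.Gen_re hdw hw
    rw [Complex.interior_setOfPred_le_re] at h3
    intro w hw
    exact h3 (mem_image_of_mem _ hw)

end Pool.Agent.N535.HM
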