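import Pool.Agent.N535.HM.Defs

/-!
# The infinitesimal generator of a continuous semigroup of the disc
-/

set_option autoImplicit false

open Filter Topology Set MeasureTheory Metric
open scoped Interval

namespace Pool.Agent.N535.HM

variable {φ : ℝ → ℂ → ℂ}

theorem isOpen_D : IsOpen D := Metric.isOpen_ball

theorem IsSemigroup.contz (h : IsSemigroup φ) {z : ℂ} (hz : z ∈ D) :
    ContinuousOn (fun t => φ t z) (Ici 0) := fun t ht =>
  (h.cont t ht).tendsto_at hz

theorem IsSemigroup.contd (h : IsSemigroup φ) {z : ℂ} (hz : z ∈ D) :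
    ContinuousOn (fun t => deriv (φ t) z) (Ici 0) := fun t ht => by
  have h1 := (h.cont t ht).deriv (by
    filter_upwards [self_mem_nhdsWithin] with s hs
    exact h.holo s hs) isOpen_D
  exact h1.tendsto_at hz

theorem slope_lemma {A : ℂ → ℂ} {p : ℝ → ℂ} {B q : ℂ} {s : Set ℝ} {t₀ : ℝ}
    (hA : HasDerivAt A B (p t₀)) (hB : B ≠ 0) (hp : ContinuousWithinAt p s t₀)
    (hAp : HasDerivWithinAt (fun t => A (p t)) q s t₀) :
    HasDerivWithinAt p (q / B) s t₀ := by
  rw [hasDerivWithinAt_iff_tendsto_slope] at hAp ⊢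
  have h1 : ContinuousAt (dslope A (p t₀)) (p t₀) := continuousAt_dslope_same.2 hA.differentiableAt
  have h2 : Tendsto (fun t => dslope A (p t₀) (p t)) (𝓝[s \ {t₀}] t₀) (𝓝 B) := by
    have h3 : Tendsto p (𝓝[s \ {t₀}] t₀) (𝓝 (p t₀)) :=
      hp.tendsto.mono_left (nhdsWithin_mono _ sdiff_subset)
    have h4 := h1.tendsto.comp h3
    rwa [dslope_same, hA.deriv] at h4
  have h3 := hAp.div h2 hB
  refine h3.congr' ?_
  have h4 : ∀ᶠ t in 𝓝[s \ {t₀}] t₀, dslope A (p t₀) (p t) ≠ 0 := h2.eventually_ne hB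
  filter_upwards [h4] with t ht
  have h5 := sub_smul_dslope A (p t₀) (p t)
  rw [Pi.div_apply, slope_def_module, slope_def_module, ← h5, smul_eq_mul]
  rw [smul_div_assoc, mul_div_cancel_right₀ _ ht]

/-- averages of the semigroup -/
noncomputable def Av (φ : ℝ → ℂ → ℂ) (δ : ℝ) (z : ℂ) : ℂ := ∫ s in (0 : ℝ)..δ, φ s z

theorem IsSemigroup.av_deriv (h : IsSemigroup φ) {δ : ℝ} (hδ : 0 ≤ δ) {z : ℂ} (hz : z ∈ D) :
    HasDerivAt (Av φ δ) (∫ s in (0 : ℝ)..δ, deriv (φ s) z) z := by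
  obtain ⟨r, hr, hrD⟩ := Metric.isOpen_iff.1 isOpen_D z hz
  have hsub : Icc 0 δ ⊆ Ici (0 : ℝ) := Icc_subset_Ici_self
  have hIoc : Ι (0 : ℝ) δ ⊆ Icc 0 δ := by
    rw [uIoc_of_le hδ]; exact Ioc_subset_Icc_self
  have hI : ∀ w ∈ D, IntervalIntegrable (fun s => φ s w) volume 0 δ := fun w hw => by
    apply ContinuousOn.intervalIntegrable
    rw [uIcc_of_le hδ]
    exact (h.contz hw).mono hsub
  have hball : ∀ w ∈ ball z (r / 2), closedBall w (r / 4) ⊆ D := by
    intro w hw x hx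
    apply hrD
    rw [mem_ball] at hw ⊢
    rw [mem_closedBall] at hx
    have := dist_triangle x w z
    linarith
  have hmain := intervalIntegral.hasDerivAt_integral_of_dominated_loc_of_deriv_le (𝕜 := ℂ)
    (F := fun w s => φ s w) (F' := fun w s => deriv (φ s) w) (x₀ := z) (s := ball z (r / 2))
    (a := 0) (b := δ) (μ := volume) (bound := fun _ => 1 / (r / 4)) (ball_mem_nhds z (by positivity))
    (by
      filter_upwards [isOpen_D.mem_nhds hz] with w hw
      have := (hI w hw).aestronglyMeasurable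
      rw [uIoc_of_le hδ]
      exact this)
    (hI z hz)
    (by
      have h1 : IntervalIntegrable (fun s => deriv (φ s) z) volume 0 δ := by
        apply ContinuousOn.intervalIntegrable
        rw [uIcc_of_le hδ]
        exact (h.contd hz).mono hsub
      rw [uIoc_of_le hδ]
      exact h1.aestronglyMeasurable)
    (by
      refine Eventually.of_forall fun s hs w hw => ?_
      have hs0 : 0 ≤ s := (hIoc hs).1
      have hw' := hball w hw
      apply Complex.norm_deriv_le_of_forall_mem_sphere_norm_le (by positivity)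
      · apply DifferentiableOn.diffContOnCl
        apply (h.holo s hs0).mono
        rw [closure_ball w (by positivity)]
        exact hw'
      · intro x hx
        have h2 := h.maps s hs0 (hw' (sphere_subset_closedBall hx))
        rw [D, mem_ball_zero_iff] at h2
        exact h2.le)
    intervalIntegrable_const
    (by
      refine Eventually.of_forall fun s hs w hw => ?_
      have hs0 : 0 ≤ s := (hIoc hs).1
      have hwD : w ∈ D := hball w hw (mem_closedBall_self (by positivity))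
      exact ((h.holo s hs0).differentiableAt (isOpen_D.mem_nhds hwD)).hasDerivAt)
  exact hmain.2

theorem IsSemigroup.av_ne (h : IsSemigroup φ) {z : ℂ} (hz : z ∈ D) :
    ∃ δ : ℝ, 0 < δ ∧ (∫ s in (0 : ℝ)..δ, deriv (φ s) z) ≠ 0 := by
  have h0 : deriv (φ 0) z = 1 := by
    have h1 : φ 0 =ᶠ[𝓝 z] id := by
      filter_upwards [isOpen_D.mem_nhds hz] with w hw
      exact h.zero w hw
    rw [h1.deriv_eq, deriv_id]
  have h1 := (h.contd hz) 0 (mem_Ici.2 le_rfl)
  rw [ContinuousWithinAt, h0] at h1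
  have h2 : ∀ᶠ s in 𝓝[Ici 0] (0 : ℝ), ‖deriv (φ s) z - 1‖ < 1 / 2 := by
    have h3 := h1.eventually (ball_mem_nhds (1 : ℂ) (by norm_num : (0 : ℝ) < 1 / 2))
    filter_upwards [h3] with s hs
    rw [← dist_eq_norm]
    exact hs
  obtain ⟨δ, hδ, hδ2⟩ := mem_nhdsGE_iff_exists_Icc_subset.1 h2
  refine ⟨δ, hδ, ?_⟩
  intro hzero
  have hint : IntervalIntegrable (fun s => deriv (φ s) z) volume 0 δ := by
    apply ContinuousOn.intervalIntegrable
    rw [uIcc_of_le hδ.le]
    exact (h.contd hz).mono Icc_subset_Ici_self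
  have h3 : ∫ s in (0 : ℝ)..δ, (deriv (φ s) z - 1) = -δ := by
    rw [intervalIntegral.integral_sub hint intervalIntegrable_const, hzero]
    simp
  have h4 : ‖∫ s in (0 : ℝ)..δ, (deriv (φ s) z - 1)‖ ≤ 1 / 2 * |δ - 0| := by
    apply intervalIntegral.norm_integral_le_of_norm_le_const
    intro s hs
    rw [uIoc_of_le hδ.le] at hs
    exact (hδ2 ⟨hs.1.le, hs.2⟩).le
  rw [h3, norm_neg, Complex.norm_real, Real.norm_eq_abs, sub_zero, abs_of_pos hδ] at h4
  have : (0 : ℝ) < δ := hδ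
  linarith

theorem IsSemigroup.path (h : IsSemigroup φ) {w : ℂ} (hw : w ∈ D) {t₀ δ : ℝ} (ht₀ : 0 ≤ t₀)
    (hδ : 0 < δ) (hne : (∫ s in (0 : ℝ)..δ, deriv (φ s) (φ t₀ w)) ≠ 0) :
    HasDerivWithinAt (fun t => φ t w)
      ((φ δ (φ t₀ w) - φ t₀ w) / ∫ s in (0 : ℝ)..δ, deriv (φ s) (φ t₀ w)) (Ici 0) t₀ := by
  have hmem : φ t₀ w ∈ D := h.maps t₀ ht₀ hw
  apply slope_lemma (h.av_deriv hδ.le hmem) hne (h.contz hw t₀ ht₀)
  set p : ℝ → ℂ := fun t => φ (max t 0) w with hp
  have hpc : Continuous p := by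
    have := (h.contz hw).comp_continuous (f := fun t : ℝ => max t 0) (by fun_prop)
      (fun t => le_max_right t 0)
    exact this
  have h1 : ∀ t ∈ Ici (0 : ℝ), Av φ δ (φ t w) = ∫ s in t..(t + δ), p s := by
    intro t ht
    have e1 : ∫ s in t..(t + δ), p s = ∫ s in (0 : ℝ)..δ, p (s + t) := by
      rw [intervalIntegral.integral_comp_add_right, zero_add, add_comm δ t]
    rw [e1, Av]
    apply intervalIntegral.integral_congr
    intro s hs
    rw [uIcc_of_le hδ.le] at hs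
    simp only [hp]
    rw [max_eq_left (add_nonneg hs.1 ht), h.add s t hs.1 ht w hw]
  have h2 : HasDerivAt (fun t => ∫ s in t..(t + δ), p s) (p (t₀ + δ) - p t₀) t₀ := by
    have e2 : (fun t => ∫ s in t..(t + δ), p s) =
        fun t => (∫ s in (0 : ℝ)..(t + δ), p s) - ∫ s in (0 : ℝ)..t, p s := by
      funext t
      rw [intervalIntegral.integral_interval_sub_left (hpc.intervalIntegrable _ _)
        (hpc.intervalIntegrable _ _)]
    rw [e2]
    have h3 := (hpc.integral_hasStrictDerivAt 0 (t₀ + δ)).hasDerivAt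
    have h4 := (hpc.integral_hasStrictDerivAt 0 t₀).hasDerivAt
    have h5 : HasDerivAt (fun t => ∫ s in (0 : ℝ)..(t + δ), p s) (p (t₀ + δ)) t₀ :=
      h3.comp_add_const t₀ δ
    exact h5.sub h4
  have h3 : p (t₀ + δ) - p t₀ = φ δ (φ t₀ w) - φ t₀ w := by
    simp only [hp]
    rw [max_eq_left ht₀, max_eq_left (by linarith), add_comm t₀ δ, h.add δ t₀ hδ.le ht₀ w hw]
  rw [← h3]
  exact h2.hasDerivWithinAt.congr h1 (h1 t₀ ht₀)

/-- the infinitesimal generator -/
noncomputable def gen (φ : ℝ → ℂ → ℂ) (z : ℂ) : ℂ := derivWithin (fun t => φ t z) (Ici 0) 0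

theorem IsSemigroup.gen_eq (h : IsSemigroup φ) {z : ℂ} (hz : z ∈ D) {δ : ℝ} (hδ : 0 < δ)
    (hne : (∫ s in (0 : ℝ)..δ, deriv (φ s) z) ≠ 0) :
    gen φ z = (φ δ z - z) / ∫ s in (0 : ℝ)..δ, deriv (φ s) z := by
  have h0 : φ 0 z = z := h.zero z hz
  have h1 := h.path hz (t₀ := 0) le_rfl hδ (by rwa [h0])
  rw [h0] at h1
  rw [gen]
  exact h1.derivWithin (uniqueDiffOn_Ici 0 0 (mem_Ici.2 le_rfl))

theorem IsSemigroup.ode (h : IsSemigroup φ) {w : ℂ} (hw : w ∈ D) {t₀ : ℝ} (ht₀ : 0 ≤ t₀) :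
    HasDerivWithinAt (fun t => φ t w) (gen φ (φ t₀ w)) (Ici 0) t₀ := by
  have hmem : φ t₀ w ∈ D := h.maps t₀ ht₀ hw
  obtain ⟨δ, hδ, hne⟩ := h.av_ne hmem
  rw [h.gen_eq hmem hδ hne]
  exact h.path hw ht₀ hδ hne

theorem IsSemigroup.gen_diff (h : IsSemigroup φ) : DifferentiableOn ℂ (gen φ) D := by
  intro z hz
  apply DifferentiableAt.differentiableWithinAt
  obtain ⟨δ, hδ, hne⟩ := h.av_ne hz
  have hA : DifferentiableOn ℂ (Av φ δ) D := fun w hw =>
    (h.av_deriv hδ.le hw).differentiableAt.differentiableWithinAt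
  have hB : DifferentiableAt ℂ (deriv (Av φ δ)) z :=
    (hA.deriv isOpen_D).differentiableAt (isOpen_D.mem_nhds hz)
  have hBz : deriv (Av φ δ) z ≠ 0 := by
    rw [(h.av_deriv hδ.le hz).deriv]; exact hne
  have h1 : gen φ =ᶠ[𝓝 z] fun w => (φ δ w - w) / deriv (Av φ δ) w := by
    filter_upwards [isOpen_D.mem_nhds hz, hB.continuousAt.eventually_ne hBz] with w hw hw2
    rw [(h.av_deriv hδ.le hw).deriv] at hw2 ⊢
    exact h.gen_eq hw hδ hw2
  have h2 : DifferentiableAt ℂ (fun w => (φ δ w - w) / deriv (Av φ δ) w) z :=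
    (((h.holo δ hδ.le).differentiableAt (isOpen_D.mem_nhds hz)).sub differentiableAt_id).div hB hBz
  exact h2.congr_of_eventuallyEq h1

end Pool.Agent.N535.HM
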